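import Mathlib

set_option autoImplicit false
set_option linter.unusedSectionVars false

/-!
Sparse matrices, and matrices that are a low rank matrix plus a sparse matrix.
-/

namespace Pool.Agent.H571Z

open Finset Matrix

section
variable {K : Type*} [Field K]

theorem rank_add_le' {m n : Type*} [Fintype m] [Fintype n] (A B : Matrix m n K) :
    (A + B).rank ≤ A.rank + B.rank := by
  unfold Matrix.rank
  have h : LinearMap.range (A + B).mulVecLin ≤
      LinearMap.range A.mulVecLin ⊔ LinearMap.range B.mulVecLin := by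
    rintro _ ⟨v, rfl⟩
    rw [Matrix.mulVecLin_add, LinearMap.add_apply]
    exact Submodule.add_mem_sup ⟨v, rfl⟩ ⟨v, rfl⟩
  exact (Submodule.finrank_mono h).trans (Submodule.finrank_add_le_finrank_add_finrank _ _)

theorem rank_sum_le' {m n α : Type*} [Fintype m] [Fintype n] (I : Finset α)
    (A : α → Matrix m n K) : (∑ a ∈ I, A a).rank ≤ ∑ a ∈ I, (A a).rank := by
  classical
  induction I using Finset.induction_on with
  | empty => simp
  | insert a s ha ih =>
    rw [Finset.sum_insert ha, Finset.sum_insert ha]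
    exact (rank_add_le' _ _).trans (by omega)

theorem rank_smul_le' {m n : Type*} [Fintype m] [Fintype n] (c : K) (A : Matrix m n K) :
    (c • A).rank ≤ A.rank := by
  classical
  have : c • A = A * (c • (1 : Matrix n n K)) := by simp
  rw [this]
  exact Matrix.rank_mul_le_left _ _

/-- Every row and every column of `S` has at most `s` nonzero entries. -/
def Sp {m n : Type*} (S : Matrix m n K) (s : ℝ) : Prop :=
  0 ≤ s ∧ (∀ i, ∃ T : Finset n, (T.card : ℝ) ≤ s ∧ ∀ j, S i j ≠ 0 → j ∈ T) ∧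
    (∀ j, ∃ T : Finset m, (T.card : ℝ) ≤ s ∧ ∀ i, S i j ≠ 0 → i ∈ T)

/-- `M` has rank at most `ρ` after changing at most `s` entries in each row and column. -/
def NR {m n : Type*} [Fintype n] (M : Matrix m n K) (ρ s : ℝ) : Prop :=
  ∃ S : Matrix m n K, Sp S s ∧ ((M - S).rank : ℝ) ≤ ρ

variable {m n o : Type*}

theorem Sp.mono {S : Matrix m n K} {s s' : ℝ} (h : Sp S s) (hs : s ≤ s') : Sp S s' := by
  obtain ⟨h0, h1, h2⟩ := h
  refine ⟨h0.trans hs, fun i => ?_, fun j => ?_⟩
  · obtain ⟨T, hT, hT'⟩ := h1 i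
    exact ⟨T, hT.trans hs, hT'⟩
  · obtain ⟨T, hT, hT'⟩ := h2 j
    exact ⟨T, hT.trans hs, hT'⟩

theorem Sp.zero {s : ℝ} (hs : 0 ≤ s) : Sp (0 : Matrix m n K) s :=
  ⟨hs, fun _ => ⟨∅, by simpa using hs, by simp⟩, fun _ => ⟨∅, by simpa using hs, by simp⟩⟩

theorem Sp.add {S S' : Matrix m n K} {s s' : ℝ} (h : Sp S s) (h' : Sp S' s') :
    Sp (S + S') (s + s') := by
  classical
  obtain ⟨h0, h1, h2⟩ := h
  obtain ⟨h0', h1', h2'⟩ := h'
  refine ⟨add_nonneg h0 h0', fun i => ?_, fun j => ?_⟩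
  · obtain ⟨T, hT, hT'⟩ := h1 i
    obtain ⟨U, hU, hU'⟩ := h1' i
    refine ⟨T ∪ U, ?_, fun j hj => ?_⟩
    · have : ((T ∪ U).card : ℝ) ≤ T.card + U.card := by exact_mod_cast Finset.card_union_le T U
      linarith
    · by_cases h : S i j = 0
      · refine Finset.mem_union_right _ (hU' j fun h' => hj ?_)
        simp [h, h']
      · exact Finset.mem_union_left _ (hT' j h)
  · obtain ⟨T, hT, hT'⟩ := h2 j
    obtain ⟨U, hU, hU'⟩ := h2' j
    refine ⟨T ∪ U, ?_, fun i hi => ?_⟩
    · have : ((T ∪ U).card : ℝ) ≤ T.card + U.card := by exact_mod_cast Finset.card_union_le T U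
      linarith
    · by_cases h : S i j = 0
      · refine Finset.mem_union_right _ (hU' i fun h' => hi ?_)
        simp [h, h']
      · exact Finset.mem_union_left _ (hT' i h)

theorem card_biUnion_le_real {α β : Type*} [DecidableEq β] (T : Finset α) (U : α → Finset β)
    {s s' : ℝ} (hT : (T.card : ℝ) ≤ s) (hU : ∀ a, ((U a).card : ℝ) ≤ s') (h0 : 0 ≤ s') :
    ((T.biUnion U).card : ℝ) ≤ s * s' := by
  have h1 : ((T.biUnion U).card : ℝ) ≤ ∑ a ∈ T, ((U a).card : ℝ) := by
    exact_mod_cast Finset.card_biUnion_le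
  have h2 : ∑ a ∈ T, ((U a).card : ℝ) ≤ ∑ _a ∈ T, s' := Finset.sum_le_sum fun a _ => hU a
  rw [Finset.sum_const, nsmul_eq_mul] at h2
  have h3 : (T.card : ℝ) * s' ≤ s * s' := mul_le_mul_of_nonneg_right hT h0
  linarith

theorem Sp.mul [Fintype n] {S : Matrix m n K} {S' : Matrix n o K} {s s' : ℝ} (h : Sp S s)
    (h' : Sp S' s') : Sp (S * S') (s * s') := by
  classical
  obtain ⟨h0, h1, h2⟩ := h
  obtain ⟨h0', h1', h2'⟩ := h'
  choose T hT hT' using h1
  choose U hU hU' using h1'
  choose V hV hV' using h2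
  choose W hW hW' using h2'
  refine ⟨mul_nonneg h0 h0', fun i => ⟨(T i).biUnion U, card_biUnion_le_real _ _ (hT i) hU h0',
    fun j hj => ?_⟩, fun j => ⟨(W j).biUnion V, ?_, fun i hi => ?_⟩⟩
  · rw [Matrix.mul_apply] at hj
    obtain ⟨k, _, hk⟩ := Finset.exists_ne_zero_of_sum_ne_zero hj
    exact Finset.mem_biUnion.2 ⟨k, hT' i k (left_ne_zero_of_mul hk),
      hU' k j (right_ne_zero_of_mul hk)⟩
  · rw [mul_comm]
    exact card_biUnion_le_real _ _ (hW j) hV h0
  · rw [Matrix.mul_apply] at hi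
    obtain ⟨k, _, hk⟩ := Finset.exists_ne_zero_of_sum_ne_zero hi
    exact Finset.mem_biUnion.2 ⟨k, hW' j k (right_ne_zero_of_mul hk),
      hV' k i (left_ne_zero_of_mul hk)⟩

theorem Sp.of_support {K' : Type*} [Field K'] {S : Matrix m n K} {S' : Matrix m n K'} {s : ℝ}
    (h : Sp S s) (hs : ∀ i j, S' i j ≠ 0 → S i j ≠ 0) : Sp S' s := by
  obtain ⟨h0, h1, h2⟩ := h
  refine ⟨h0, fun i => ?_, fun j => ?_⟩
  · obtain ⟨T, hT, hT'⟩ := h1 i
    exact ⟨T, hT, fun j hj => hT' j (hs i j hj)⟩
  · obtain ⟨T, hT, hT'⟩ := h2 j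
    exact ⟨T, hT, fun i hi => hT' i (hs i j hi)⟩

theorem Sp.submatrix {m' n' : Type*} {S : Matrix m n K} {s : ℝ} (h : Sp S s) (e : m' → m)
    (e' : n' → n) (he : Function.Injective e) (he' : Function.Injective e') :
    Sp (S.submatrix e e') s := by
  obtain ⟨h0, h1, h2⟩ := h
  refine ⟨h0, fun i => ?_, fun j => ?_⟩
  · obtain ⟨T, hT, hT'⟩ := h1 (e i)
    refine ⟨T.preimage e' he'.injOn, le_trans ?_ hT, fun j hj => ?_⟩
    · exact_mod_cast Finset.card_le_card_of_injOn e' (fun x hx => by simpa using hx) he'.injOn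
    · exact Finset.mem_preimage.2 (hT' _ hj)
  · obtain ⟨T, hT, hT'⟩ := h2 (e' j)
    refine ⟨T.preimage e he.injOn, le_trans ?_ hT, fun i hi => ?_⟩
    · exact_mod_cast Finset.card_le_card_of_injOn e (fun x hx => by simpa using hx) he.injOn
    · exact Finset.mem_preimage.2 (hT' _ hi)

theorem Sp.diag {S : Matrix m m K} (h : ∀ i j, S i j ≠ 0 → i = j) : Sp S 1 :=
  ⟨zero_le_one, fun i => ⟨{i}, by simp, fun j hj => by simp [h i j hj]⟩,
    fun j => ⟨{j}, by simp, fun i hi => by simp [h i j hi]⟩⟩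

theorem Sp.full [Fintype m] (S : Matrix m m K) : Sp S (Fintype.card m) :=
  ⟨by positivity, fun _ => ⟨univ, by simp, by simp⟩, fun _ => ⟨univ, by simp, by simp⟩⟩

variable [Fintype m] [Fintype n] [Fintype o]

theorem NR.of_sp {S : Matrix m n K} {s : ℝ} (h : Sp S s) : NR S 0 s := ⟨S, h, by simp⟩

theorem NR.mono {M : Matrix m n K} {ρ s ρ' s' : ℝ} (h : NR M ρ s) (hρ : ρ ≤ ρ') (hs : s ≤ s') :
    NR M ρ' s' := by
  obtain ⟨S, h1, h2⟩ := h
  exact ⟨S, h1.mono hs, h2.trans hρ⟩

theorem NR.nonneg {M : Matrix m n K} {ρ s : ℝ} (h : NR M ρ s) : 0 ≤ ρ ∧ 0 ≤ s := by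
  obtain ⟨S, h1, h2⟩ := h
  exact ⟨le_trans (by positivity) h2, h1.1⟩

theorem NR.add {M N : Matrix m n K} {ρ s ρ' s' : ℝ} (h : NR M ρ s) (h' : NR N ρ' s') :
    NR (M + N) (ρ + ρ') (s + s') := by
  obtain ⟨S, h1, h2⟩ := h
  obtain ⟨T, h1', h2'⟩ := h'
  refine ⟨S + T, h1.add h1', ?_⟩
  have e : M + N - (S + T) = (M - S) + (N - T) := by abel
  have : ((M + N - (S + T)).rank : ℝ) ≤ (M - S).rank + (N - T).rank := by
    rw [e]; exact_mod_cast rank_add_le' _ _
  linarith

theorem NR.mul {M : Matrix m n K} {N : Matrix n o K} {ρ s ρ' s' : ℝ} (h : NR M ρ s)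
    (h' : NR N ρ' s') : NR (M * N) (ρ + ρ') (s * s') := by
  obtain ⟨S, h1, h2⟩ := h
  obtain ⟨T, h1', h2'⟩ := h'
  refine ⟨S * T, h1.mul h1', ?_⟩
  have e : M * N - S * T = (M - S) * N + S * (N - T) := by
    rw [Matrix.sub_mul, Matrix.mul_sub]; abel
  have : (M * N - S * T).rank ≤ (M - S).rank + (N - T).rank := by
    rw [e]
    exact (rank_add_le' _ _).trans
      (add_le_add (Matrix.rank_mul_le_left _ _) (Matrix.rank_mul_le_right _ _))
  have : ((M * N - S * T).rank : ℝ) ≤ (M - S).rank + (N - T).rank := by exact_mod_cast this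
  linarith

theorem NR.smul {M : Matrix m n K} {ρ s : ℝ} (h : NR M ρ s) (c : K) : NR (c • M) ρ s := by
  obtain ⟨S, h1, h2⟩ := h
  refine ⟨c • S, h1.of_support fun i j hij h0 => hij (by simp [h0]), le_trans ?_ h2⟩
  rw [← smul_sub]
  exact_mod_cast rank_smul_le' c _

theorem NR.sum {α : Type*} (I : Finset α) (M : α → Matrix m n K) {ρ s : ℝ}
    (h : ∀ a ∈ I, NR (M a) ρ s) : NR (∑ a ∈ I, M a) (I.card * ρ) (I.card * s) := by
  classical
  induction I using Finset.induction_on with
  | empty => simpa using NR.of_sp (Sp.zero (K := K) (m := m) (n := n) le_rfl)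
  | insert a t ha ih =>
    rw [Finset.sum_insert ha, Finset.card_insert_of_notMem ha]
    have := (h a (Finset.mem_insert_self _ _)).add
      (ih fun b hb => h b (Finset.mem_insert_of_mem hb))
    convert this using 1 <;> push_cast <;> ring

theorem NR.submatrix {m' n' : Type*} [Fintype n'] {M : Matrix m n K} {ρ s : ℝ} (h : NR M ρ s)
    (e : m' → m) (e' : n' → n) (he : Function.Injective e) (he' : Function.Injective e') :
    NR (M.submatrix e e') ρ s := by
  obtain ⟨S, h1, h2⟩ := h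
  refine ⟨S.submatrix e e', h1.submatrix e e' he he', le_trans ?_ h2⟩
  have : M.submatrix e e' - S.submatrix e e' = (M - S).submatrix e e' := by
    ext i j; simp
  rw [this]
  exact Nat.cast_le.2 (Matrix.rank_submatrix_le (M - S) e e')

/-- A matrix supported on few rows and few columns has small rank. -/
theorem rank_le_of_cover (A : Matrix m n K) (R : Finset m) (C : Finset n)
    (h : ∀ i j, A i j ≠ 0 → i ∈ R ∨ j ∈ C) : A.rank ≤ R.card + C.card := by
  classical
  have e : A = (Matrix.of fun i j => if i ∈ R then A i j else 0) +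
      (Matrix.of fun i j => if i ∈ R then 0 else A i j) := by
    ext i j; by_cases hi : i ∈ R <;> simp [hi]
  rw [e]
  refine (rank_add_le' _ _).trans (add_le_add ?_ ?_)
  · refine Matrix.rank_le_card_of_support_subset _ _ fun i hi => ?_
    by_contra hR
    apply hi
    funext j
    have : i ∉ R := hR
    simp [Matrix.row, this]
  · rw [← Matrix.rank_transpose]
    refine Matrix.rank_le_card_of_support_subset _ _ fun j hj => ?_
    by_contra hC
    apply hj
    funext i
    have hC' : j ∉ C := hC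
    by_cases hi : i ∈ R
    · simp [Matrix.row, hi]
    · have : A i j = 0 := by
        by_contra h0
        rcases h i j h0 with h | h
        · exact hi h
        · exact hC' h
      simp [Matrix.row, hi, this]

/-- Block matrices with few nonzero blocks, each of them non-rigid. -/
theorem NR.blocks {X B : Type*} [Fintype X] [Fintype B] (M : Matrix (X × B) (X × B) K)
    (P : X → X → Prop) {σ ρ s : ℝ} (hσ : 0 ≤ σ) (hρ : 0 ≤ ρ) (hs : 0 ≤ s)
    (hr : ∀ i, ∃ T : Finset X, (T.card : ℝ) ≤ σ ∧ ∀ j, P i j → j ∈ T)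
    (hc : ∀ j, ∃ T : Finset X, (T.card : ℝ) ≤ σ ∧ ∀ i, P i j → i ∈ T)
    (h0 : ∀ i j, ¬ P i j → ∀ u v, M (i, u) (j, v) = 0)
    (h1 : ∀ i j, P i j → NR (Matrix.of fun u v => M (i, u) (j, v)) ρ s) :
    NR M (Fintype.card X * σ * ρ) (σ * s) := by
  classical
  choose T hT hT' using hr
  choose U hU hU' using hc
  have h2 : ∀ i j, ∃ S : Matrix B B K, Sp S s ∧
      (((Matrix.of fun u v => M (i, u) (j, v)) - S).rank : ℝ) ≤ ρ ∧ (¬ P i j → S = 0) := by
    intro i j
    by_cases hP : P i j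
    · obtain ⟨S, hS, hS'⟩ := h1 i j hP
      exact ⟨S, hS, hS', fun h => absurd hP h⟩
    · refine ⟨0, Sp.zero hs, ?_, fun _ => rfl⟩
      have : (Matrix.of fun u v => M (i, u) (j, v)) = 0 := by
        ext u v; simp [h0 i j hP]
      simpa [this] using hρ
  choose S hS hS' hS0 using h2
  have hSr := fun i j => (hS i j).2.1
  have hSc := fun i j => (hS i j).2.2
  choose V hV hV' using hSr
  choose W hW hW' using hSc
  refine ⟨Matrix.of fun x y => S x.1 y.1 x.2 y.2, ⟨mul_nonneg hσ hs, fun x => ?_, fun y => ?_⟩, ?_⟩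
  · refine ⟨(T x.1).biUnion fun j => (V x.1 j x.2).image fun v => (j, v), ?_, fun y hy => ?_⟩
    · refine card_biUnion_le_real _ _ (hT _) (fun j => le_trans ?_ (hV x.1 j x.2)) hs
      exact_mod_cast Finset.card_image_le
    · simp only [Matrix.of_apply] at hy
      have hP : P x.1 y.1 := by
        by_contra hP
        apply hy
        rw [hS0 _ _ hP]; rfl
      exact Finset.mem_biUnion.2 ⟨y.1, hT' _ _ hP,
        Finset.mem_image.2 ⟨y.2, hV' _ _ _ _ hy, rfl⟩⟩
  · refine ⟨(U y.1).biUnion fun i => (W i y.1 y.2).image fun u => (i, u), ?_, fun x hx => ?_⟩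
    · refine card_biUnion_le_real _ _ (hU _) (fun i => le_trans ?_ (hW i y.1 y.2)) hs
      exact_mod_cast Finset.card_image_le
    · simp only [Matrix.of_apply] at hx
      have hP : P x.1 y.1 := by
        by_contra hP
        apply hx
        rw [hS0 _ _ hP]; rfl
      exact Finset.mem_biUnion.2 ⟨x.1, hU' _ _ hP,
        Finset.mem_image.2 ⟨x.2, hW' _ _ _ _ hx, rfl⟩⟩
  · set L : X → X → Matrix B B K := fun i j => (Matrix.of fun u v => M (i, u) (j, v)) - S i j
      with hL
    let E : X → Matrix (X × B) B K := fun i => Matrix.of fun x u => if x = (i, u) then 1 else 0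
    have hE : ∀ i j (x y : X × B), (E i * L i j * (E j)ᵀ) x y =
        if x.1 = i ∧ y.1 = j then L i j x.2 y.2 else 0 := by
      rintro i j ⟨i', u⟩ ⟨j', v⟩
      simp only [Matrix.mul_apply, E, Matrix.of_apply, Matrix.transpose_apply, Prod.mk.injEq]
      by_cases hi : i' = i <;> by_cases hj : j' = j <;> simp [hi, hj]
    have e : (M - Matrix.of fun x y => S x.1 y.1 x.2 y.2) =
        ∑ i, ∑ j ∈ T i, E i * L i j * (E j)ᵀ := by
      ext ⟨i', u⟩ ⟨j', v⟩
      simp only [Matrix.sum_apply, hE]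
      rw [Finset.sum_eq_single i' (fun i _ hi => by simp [Ne.symm hi]) (by simp)]
      simp only [true_and]
      rw [Finset.sum_ite_eq]
      split_ifs with hm
      · simp [hL]
      · have hP : ¬ P i' j' := fun hP => hm (hT' _ _ hP)
        simp [h0 _ _ hP, hS0 _ _ hP]
    rw [e]
    have h3 : (∑ i, ∑ j ∈ T i, E i * L i j * (E j)ᵀ).rank ≤ ∑ i, ∑ j ∈ T i, (L i j).rank := by
      refine (rank_sum_le' _ _).trans (Finset.sum_le_sum fun i _ => ?_)
      refine (rank_sum_le' _ _).trans (Finset.sum_le_sum fun j _ => ?_)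
      exact (Matrix.rank_mul_le_left _ _).trans (Matrix.rank_mul_le_right _ _)
    have h4 : ((∑ i, ∑ j ∈ T i, E i * L i j * (E j)ᵀ).rank : ℝ) ≤
        ∑ i, ∑ j ∈ T i, ((L i j).rank : ℝ) := by exact_mod_cast h3
    refine h4.trans ?_
    calc ∑ i, ∑ j ∈ T i, ((L i j).rank : ℝ) ≤ ∑ _i : X, σ * ρ := by
          refine Finset.sum_le_sum fun i _ => ?_
          calc ∑ j ∈ T i, ((L i j).rank : ℝ) ≤ ∑ _j ∈ T i, ρ :=
                Finset.sum_le_sum fun j _ => hS' i j
            _ = (T i).card * ρ := by simp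
            _ ≤ σ * ρ := mul_le_mul_of_nonneg_right (hT i) hρ
      _ = Fintype.card X * σ * ρ := by simp [mul_assoc]

end

/-- Descent from a finite extension field. -/
theorem NR.descend {F K : Type*} [Field F] [Field K] [Algebra F K] [FiniteDimensional F K]
    {m n : Type*} [Fintype m] [Fintype n] (M : Matrix m n F) {ρ s : ℝ}
    (h : NR (M.map (algebraMap F K)) ρ s) : NR M (Module.finrank F K * ρ) s := by
  classical
  obtain ⟨S, h1, h2⟩ := h
  obtain ⟨φ, hφ⟩ := LinearMap.exists_leftInverse_of_injective (Algebra.linearMap F K)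
    (LinearMap.ker_eq_bot.2 (algebraMap F K).injective)
  have hφ' : ∀ a : F, φ (algebraMap F K a) = a := fun a => by
    simpa using congrArg (fun f => f a) hφ
  refine ⟨S.map φ, h1.of_support fun i j hij h0 => hij (by simp [h0]), ?_⟩
  set L := M.map (algebraMap F K) - S with hL
  have e : M - S.map φ = L.map φ := by
    ext i j; simp [hL, hφ']
  rw [e]
  have key : (L.map φ).rank ≤ Module.finrank F K * L.rank := by
    rw [Matrix.rank_eq_finrank_span_cols, Matrix.rank_eq_finrank_span_cols]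
    set W := Submodule.span K (Set.range L.col)
    let Φ : (m → K) →ₗ[F] (m → F) := LinearMap.compLeft φ m
    have hle : Submodule.span F (Set.range (L.map φ).col) ≤ (W.restrictScalars F).map Φ := by
      rw [Submodule.span_le]
      rintro _ ⟨j, rfl⟩
      exact ⟨L.col j, Submodule.subset_span ⟨j, rfl⟩, rfl⟩
    have : Module.Finite F (m → K) := Module.Finite.trans K (m → K)
    refine (Submodule.finrank_mono hle).trans ((Submodule.finrank_map_le _ _).trans ?_)
    have : Module.finrank F (W.restrictScalars F) = Module.finrank F W := rfl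
    rw [this, Module.finrank_mul_finrank]
  have : ((L.map φ).rank : ℝ) ≤ Module.finrank F K * (L.rank : ℝ) := by exact_mod_cast key
  exact this.trans (mul_le_mul_of_nonneg_left h2 (by positivity))

end Pool.Agent.H571Z
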