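import Pool.Agent.H571Z.Large

set_option autoImplicit false
set_option linter.unusedSectionVars false

/-!
All finite abelian groups, over a field with enough roots of unity.
-/

namespace Pool.Agent.H571Z

open Finset Matrix Polynomial

theorem small_conc {ε : ℝ} (hε : 0 < ε) {K₀ : ℕ} (hK : 1 ≤ K₀) : ∃ η : ℝ, 0 < η ∧
    ∀ (ι : Type) [Fintype ι] [DecidableEq ι] (n : ι → ℕ), (∀ t, 2 ≤ n t) → (∀ t, n t ≤ K₀) →
      Conc ι K₀ (Real.exp (-(η * Real.log (∏ t, n t : ℕ))))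
        (Real.exp (ε * Real.log (∏ t, n t : ℕ))) := by
  obtain ⟨a, ha, ha'⟩ := exists_dual (x := ε / 4) (by positivity)
  set δ : ℝ := min 1 (ε / 4 / a) with hδ
  have hδ0 : 0 < δ := lt_min one_pos (by positivity)
  have hδ1 : δ ≤ 1 := min_le_left _ _
  have hδ2 : δ * a ≤ ε / 4 := by
    have := min_le_right 1 (ε / 4 / a)
    rwa [← hδ, le_div_iff₀ ha] at this
  have hK' : (1 : ℝ) ≤ K₀ := by exact_mod_cast hK
  refine ⟨δ ^ 2 / (16 * K₀ ^ 3), by positivity, fun ι _ _ n h2 hn => ?_⟩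
  set R : ℕ := Fintype.card ι with hR
  have hR0 : (0 : ℝ) ≤ R := by positivity
  have h1 : 2 ^ R ≤ ∏ t, n t := by
    calc 2 ^ R = ∏ _t : ι, 2 := by simp [hR]
      _ ≤ _ := Finset.prod_le_prod' fun t _ => h2 t
  have h3 : ∏ t, n t ≤ K₀ ^ R := by
    calc ∏ t, n t ≤ ∏ _t : ι, K₀ := Finset.prod_le_prod' fun t _ => hn t
      _ = _ := by simp [hR]
  generalize ∏ t, n t = N at h1 h3
  have h1' : (2 : ℝ) ^ R ≤ N := by exact_mod_cast h1
  have h3' : (N : ℝ) ≤ (K₀ : ℝ) ^ R := by exact_mod_cast h3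
  have hN0 : (0 : ℝ) < N := lt_of_lt_of_le (by positivity) h1'
  have h4 : (R : ℝ) ≤ 2 * Real.log N := by
    have h5 := Real.log_le_log (by positivity) h1'
    rw [Real.log_pow] at h5
    have h6 : (1 : ℝ) / 2 ≤ Real.log 2 := by have := Real.log_two_gt_d9; linarith
    nlinarith
  have h7 : Real.log N ≤ R * K₀ := by
    have h5 := Real.log_le_log hN0 h3'
    rw [Real.log_pow] at h5
    exact h5.trans (mul_le_mul_of_nonneg_left (Real.log_le_self (by positivity)) hR0)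
  refine (conc ι K₀ (lam := δ / (4 * K₀ ^ 2)) (a := a) (κ := ε / 4) (D := δ * R)
    (by positivity) ?_ ha.le (by positivity) (by positivity) (geo_le (by linarith))).mono
    (Real.exp_le_exp.2 ?_) (Real.exp_le_exp.2 ?_)
  · rw [div_mul_eq_mul_div, div_le_one (by positivity)]
    nlinarith
  · have e : (R : ℝ) * ((δ / (4 * K₀ ^ 2)) ^ 2 * (K₀ : ℝ) ^ 2) - δ / (4 * K₀ ^ 2) * (δ * R / 2) =
        -(δ ^ 2 / (16 * K₀ ^ 3) * (R * K₀)) := by
      field_simp; ring
    rw [← hR, e, neg_le_neg_iff]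
    exact mul_le_mul_of_nonneg_left h7 (by positivity)
  · rw [← hR]
    nlinarith

theorem Rich.mono {K : Type*} [Field K] {m m' T : ℕ} (h : Rich K m T) (hm : m' ≤ m) :
    Rich K m' T :=
  ⟨fun n h1 h2 => h.1 n h1 (h2.trans hm), fun n h1 h2 => h.2.1 n h1 (h2.trans hm), h.2.2⟩

theorem comb {ε : ℝ} (hε : 0 < ε) (hε1 : ε ≤ 1) : ∃ (m : ℕ) (η : ℝ), 0 < η ∧
    ∀ (K : Type*) [Field K] (G : Type*) [AddCommGroup G] [Fintype G] (T : ℕ), Rich K m T →
      2 * m ^ 3 * Nat.log 2 (Fintype.card G) + m + 1 < T → ∀ f : G → K,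
      NR (circ f) (88 * T * Fintype.card G * Real.exp (-(η * Real.log (Fintype.card G))))
        (T ^ 2 * Real.exp (ε * Real.log (Fintype.card G))) := by
  obtain ⟨m, K₀, ηB, hm, hK₀, hηB, hlarge⟩ := large (ε := ε / 2) (by positivity)
  set θ : ℝ := min (ε / 10) (ηB * ε / 4) with hθ
  have hθ0 : 0 < θ := lt_min (by positivity) (by positivity)
  have hθ1 : θ ≤ ε / 10 := min_le_left _ _
  have hθ2 : θ ≤ ηB * ε / 4 := min_le_right _ _
  obtain ⟨ηA, hηA, hsmall⟩ := small_conc hθ0 hK₀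
  refine ⟨max m K₀, min θ (ηA * θ), lt_min hθ0 (by positivity), ?_⟩
  intro K _ G _ _ T hK hT f
  classical
  obtain ⟨ι, _, n, hn, ⟨φ₀⟩⟩ := AddCommGroup.equiv_directSum_zmod_of_finite' G
  let φ : G ≃+ (∀ t, ZMod (n t)) := φ₀.trans (DirectSum.addEquivProd _)
  have : ∀ t, NeZero (n t) := fun t => ⟨by have := hn t; omega⟩
  have hcard : Fintype.card G = ∏ t, n t := by
    rw [Fintype.card_congr φ.toEquiv, Fintype.card_pi]
    simp [ZMod.card]
  set N₁ := ∏ t : {t // n t ≤ K₀}, n t with hN₁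
  set N₂ := ∏ t : {t // ¬ n t ≤ K₀}, n t with hN₂
  have hN : N₁ * N₂ = Fintype.card G := by
    rw [hcard]; exact Fintype.prod_subtype_mul_prod_subtype _ _
  have hN₁0 : 0 < N₁ := Finset.prod_pos fun t _ => NeZero.pos _
  have hN₂0 : 0 < N₂ := Finset.prod_pos fun t _ => NeZero.pos _
  have hcA : Fintype.card (∀ t : {t // n t ≤ K₀}, ZMod (n t)) = N₁ := by
    rw [Fintype.card_pi]; simp [ZMod.card, hN₁]
  have hcB : Fintype.card (∀ t : {t // ¬ n t ≤ K₀}, ZMod (n t)) = N₂ := by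
    rw [Fintype.card_pi]; simp [ZMod.card, hN₂]
  have hB := hlarge K {t // ¬ n t ≤ K₀} (fun t => n t) T (fun t => not_le.1 t.2)
    (hK.mono (le_max_left _ _)) (by
      have h1 : Nat.log 2 N₂ ≤ Nat.log 2 (Fintype.card G) :=
        Nat.log_mono_right (hN ▸ Nat.le_mul_of_pos_left _ hN₁0)
      have h2 : m ≤ max m K₀ := le_max_left _ _
      have h3 : 2 * m ^ 3 * Nat.log 2 N₂ ≤ 2 * (max m K₀) ^ 3 * Nat.log 2 (Fintype.card G) :=
        Nat.mul_le_mul (Nat.mul_le_mul_left _ (Nat.pow_le_pow_left h2 _)) h1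
      rw [← hN₂]
      omega)
  rw [← hN₂] at hB
  have hC := hsmall {t // n t ≤ K₀} (fun t => n t) (fun t => hn t) (fun t => t.2)
  rw [← hN₁] at hC
  have hL : ∀ t : {t // n t ≤ K₀}, Lev K (ZMod (n t)) K₀ 2 0 := fun t => by
    obtain ⟨α, hα⟩ := hK.1 (n t) (NeZero.pos _) (t.2.trans (le_max_right _ _))
    exact lev_split α hα t.2
  have hstep : ∀ {ρ s : ℝ}, (∀ F : (∀ t : {t // ¬ n t ≤ K₀}, ZMod (n t)) → K, NR (circ F) ρ s) →
      ∀ F : (∀ t : {t // n t ≤ K₀}, ZMod (n t)) × (∀ t : {t // ¬ n t ≤ K₀}, ZMod (n t)) → K,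
      NR (circ F) (10 * (N₁ * N₂) * Real.exp (-(ηA * Real.log N₁)) +
        N₁ * Real.exp (θ * Real.log N₁) * ρ) (Real.exp (5 * θ * Real.log N₁) * s) := by
    intro ρ s h F
    have := step hC hL {1} (by simp) (by simp) h F
    rw [hcA, hcB] at this
    convert this using 1
    · simp only [Finset.card_singleton]; push_cast; ring
    · simp only [Finset.card_singleton, Nat.cast_one, one_mul]
      rw [← pow_mul, ← pow_succ, ← Real.exp_nat_mul]
      congr 2
      push_cast; ring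
  refine embed (K := K) (fun g : G => ((fun t : {t // n t ≤ K₀} => φ g t),
    (fun t : {t // ¬ n t ≤ K₀} => φ g t))) (fun x y x' y' h => ?_) (fun F => ?_) f
  · apply φ.injective
    rw [map_sub, map_sub]
    funext t
    by_cases ht : n t ≤ K₀
    · exact congrFun (congrArg Prod.fst h) ⟨t, ht⟩
    · exact congrFun (congrArg Prod.snd h) ⟨t, ht⟩
  rw [← hN]
  have hN₁' : (1 : ℝ) ≤ N₁ := by exact_mod_cast hN₁0
  have hN₂' : (1 : ℝ) ≤ N₂ := by exact_mod_cast hN₂0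
  have hT1 : (1 : ℝ) ≤ T := by exact_mod_cast (show 1 ≤ T by omega)
  have hL₁ : 0 ≤ Real.log N₁ := Real.log_nonneg hN₁'
  have hL₂ : 0 ≤ Real.log N₂ := Real.log_nonneg hN₂'
  have hLN : Real.log ((N₁ * N₂ : ℕ) : ℝ) = Real.log N₁ + Real.log N₂ := by
    rw [Nat.cast_mul, Real.log_mul (by positivity) (by positivity)]
  have e₁ : (N₁ : ℝ) = Real.exp (Real.log N₁) := (Real.exp_log (by positivity)).symm
  have e₂ : (N₂ : ℝ) = Real.exp (Real.log N₂) := (Real.exp_log (by positivity)).symm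
  rw [hLN, Nat.cast_mul]
  generalize Real.log N₁ = L₁ at *
  generalize Real.log N₂ = L₂ at *
  set η := min θ (ηA * θ) with hη
  have hη1 : η ≤ θ := min_le_left _ _
  have hη2 : η ≤ ηA * θ := min_le_right _ _
  have hη0 : 0 < η := lt_min hθ0 (by positivity)
  have hE : 0 < Real.exp (-(η * (L₁ + L₂))) := Real.exp_pos _
  have hP : (0 : ℝ) < (N₁ : ℝ) * N₂ := by positivity
  have hsp : ∀ x : ℝ, x ≤ ε * (L₁ + L₂) → Real.exp x ≤ T ^ 2 * Real.exp (ε * (L₁ + L₂)) := by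
    intro x hx
    exact (Real.exp_le_exp.2 hx).trans (le_mul_of_one_le_left (Real.exp_pos _).le (by nlinarith))
  by_cases hc1 : L₂ ≤ ε / 2 * (L₁ + L₂)
  · refine (hstep (ρ := 0) (s := N₂) (fun F => by
      simpa [hcB] using NR.of_sp (Sp.full (circ F))) F).mono ?_ ?_
    · have h1 : Real.exp (-(ηA * L₁)) ≤ Real.exp (-(η * (L₁ + L₂))) := by
        refine Real.exp_le_exp.2 (neg_le_neg ?_)
        have h2 : θ * (L₁ + L₂) ≤ L₁ := by nlinarith
        calc η * (L₁ + L₂) ≤ ηA * θ * (L₁ + L₂) := mul_le_mul_of_nonneg_right hη2 (by positivity)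
          _ = ηA * (θ * (L₁ + L₂)) := by ring
          _ ≤ ηA * L₁ := mul_le_mul_of_nonneg_left h2 hηA.le
      rw [mul_zero, add_zero]
      have h3 := mul_le_mul_of_nonneg_left h1 hP.le
      have h4 := mul_pos hP hE
      nlinarith
    · rw [e₂, ← Real.exp_add]
      exact hsp _ (by nlinarith)
  · have hρ : ∀ x : ℝ, x ≤ θ * (L₁ + L₂) →
        Real.exp x * Real.exp (-(ηB * L₂)) ≤ Real.exp (-(η * (L₁ + L₂))) := by
      intro x hx
      rw [← Real.exp_add]
      refine Real.exp_le_exp.2 ?_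
      have h1 : ηB * (ε / 2 * (L₁ + L₂)) ≤ ηB * L₂ :=
        mul_le_mul_of_nonneg_left (not_le.1 hc1).le hηB.le
      have h2 : θ * (L₁ + L₂) ≤ ηB * ε / 4 * (L₁ + L₂) :=
        mul_le_mul_of_nonneg_right hθ2 (by positivity)
      have h3 : η * (L₁ + L₂) ≤ θ * (L₁ + L₂) := mul_le_mul_of_nonneg_right hη1 (by positivity)
      nlinarith
    have hs : ∀ x : ℝ, x ≤ ε / 2 * (L₁ + L₂) → Real.exp x * (T ^ 2 * Real.exp (ε / 2 * L₂)) ≤
        T ^ 2 * Real.exp (ε * (L₁ + L₂)) := by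
      intro x hx
      rw [mul_left_comm, ← Real.exp_add]
      refine mul_le_mul_of_nonneg_left (Real.exp_le_exp.2 ?_) (by positivity)
      nlinarith
    by_cases hc2 : L₁ ≤ θ * (L₁ + L₂)
    · have := step_triv hB F
      rw [hcA] at this
      refine this.mono ?_ ?_
      · have h1 := hρ L₁ hc2
        rw [← e₁] at h1
        have h2 := mul_le_mul_of_nonneg_left h1 (show (0 : ℝ) ≤ 78 * T * (N₁ * N₂) by positivity)
        have h4 : 0 ≤ (T : ℝ) * (N₁ * N₂) * Real.exp (-(η * (L₁ + L₂))) := by positivity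
        nlinarith
      · have h1 := hs L₁ (by nlinarith)
        rwa [← e₁] at h1
    · refine (hstep hB F).mono ?_ (hs _ (by nlinarith))
      have h1 := hρ (θ * L₁) (by nlinarith)
      have h2 := mul_le_mul_of_nonneg_left h1 (show (0 : ℝ) ≤ 78 * T * (N₁ * N₂) by positivity)
      have h3 : Real.exp (-(ηA * L₁)) ≤ Real.exp (-(η * (L₁ + L₂))) := by
        refine Real.exp_le_exp.2 (neg_le_neg ?_)
        calc η * (L₁ + L₂) ≤ ηA * θ * (L₁ + L₂) := mul_le_mul_of_nonneg_right hη2 (by positivity)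
          _ = ηA * (θ * (L₁ + L₂)) := by ring
          _ ≤ ηA * L₁ := mul_le_mul_of_nonneg_left (not_le.1 hc2).le hηA.le
      have h4 := mul_le_mul_of_nonneg_left h3 hP.le
      have h5 := mul_le_mul_of_nonneg_right hT1 (mul_pos hP hE).le
      nlinarith

end Pool.Agent.H571Z
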