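import Pool.Agent.H571Z.Basic

set_option autoImplicit false
set_option linter.unusedSectionVars false

/-!
Triangular patterns and the concentration argument for products of triangular patterns.
-/

namespace Pool.Agent.H571Z

open Finset Matrix

/-- A block triangular pattern on `X` with blocks of size at most `b`. -/
structure Pat (X : Type) [Fintype X] (b : ℕ) : Type where
  β₁ : X → ℕ
  h₁ : X → ℕ
  β₂ : X → ℕ
  h₂ : X → ℕ
  inj₁ : ∀ x y, β₁ x = β₁ y → h₁ x = h₁ y → x = y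
  inj₂ : ∀ x y, β₂ x = β₂ y → h₂ x = h₂ y → x = y
  lt₁ : ∀ x, h₁ x < b
  lt₂ : ∀ x, h₂ x < b
  sum_le : ∑ x, h₁ x ≤ ∑ x, h₂ x

/-- The positions allowed by a pattern. -/
def Pat.rel {X : Type} [Fintype X] {b : ℕ} (P : Pat X b) (i j : X) : Prop :=
  P.β₁ i = P.β₂ j ∧ P.h₂ j ≤ P.h₁ i

theorem mgf_le {X : Type} [Fintype X] (g : X → ℝ) {b lam : ℝ} (hl : 0 ≤ lam) (hlb : lam * b ≤ 1)
    (hg : ∀ x, |g x| ≤ b) (h0 : ∑ x, g x = 0) :
    ∑ x, Real.exp (lam * g x) ≤ Fintype.card X * Real.exp (lam ^ 2 * b ^ 2) := by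
  have h1 : ∀ x, Real.exp (lam * g x) ≤ 1 + lam * g x + lam ^ 2 * b ^ 2 := by
    intro x
    have ha : |lam * g x| ≤ lam * b := by
      rw [abs_mul, abs_of_nonneg hl]
      exact mul_le_mul_of_nonneg_left (hg x) hl
    have h2 := Real.abs_exp_sub_one_sub_id_le (ha.trans hlb)
    have h3 : (lam * g x) ^ 2 ≤ (lam * b) ^ 2 := by
      rw [← sq_abs (lam * g x)]
      exact pow_le_pow_left₀ (abs_nonneg _) ha 2
    have h4 := (abs_le.1 h2).2
    nlinarith
  calc ∑ x, Real.exp (lam * g x) ≤ ∑ x, (1 + lam * g x + lam ^ 2 * b ^ 2) :=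
        Finset.sum_le_sum fun x _ => h1 x
    _ = Fintype.card X * (1 + lam ^ 2 * b ^ 2) := by
        rw [Finset.sum_add_distrib, Finset.sum_add_distrib, ← Finset.mul_sum, h0]
        simp; ring
    _ ≤ _ := by
        refine mul_le_mul_of_nonneg_left ?_ (by positivity)
        have := Real.add_one_le_exp (lam ^ 2 * b ^ 2)
        linarith

theorem tail_le {ι : Type} [Fintype ι] [DecidableEq ι] {X : ι → Type} [∀ t, Fintype (X t)]
    (g : ∀ t, X t → ℝ) {b lam : ℝ} (hl : 0 ≤ lam) (hlb : lam * b ≤ 1)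
    (hg : ∀ t x, |g t x| ≤ b) (h0 : ∀ t, ∑ x, g t x = 0) (E : ℝ) :
    ∃ T : Finset (∀ t, X t), (T.card : ℝ) ≤
      Real.exp (Fintype.card ι * (lam ^ 2 * b ^ 2) - lam * E) * Fintype.card (∀ t, X t) ∧
      ∀ i, i ∉ T → ∑ t, g t (i t) < E := by
  classical
  refine ⟨univ.filter fun i => E ≤ ∑ t, g t (i t), ?_, fun i hi => by simpa using hi⟩
  have h1 : ((univ.filter fun i : ∀ t, X t => E ≤ ∑ t, g t (i t)).card : ℝ) ≤
      ∑ i : ∀ t, X t, Real.exp (lam * (∑ t, g t (i t)) - lam * E) := by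
    rw [Finset.card_eq_sum_ones, Nat.cast_sum]
    refine le_trans (Finset.sum_le_sum fun i hi => ?_)
      (Finset.sum_le_sum_of_subset_of_nonneg (Finset.filter_subset _ univ)
        fun i _ _ => (Real.exp_pos _).le)
    have hi' : E ≤ ∑ t, g t (i t) := by simpa using hi
    have : 0 ≤ lam * (∑ t, g t (i t)) - lam * E := by
      rw [← mul_sub]; exact mul_nonneg hl (by linarith)
    simpa using Real.one_le_exp this
  refine h1.trans ?_
  have h2 : ∑ i : ∀ t, X t, Real.exp (lam * (∑ t, g t (i t)) - lam * E) =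
      Real.exp (-(lam * E)) * ∏ t, ∑ x, Real.exp (lam * g t x) := by
    rw [Finset.prod_univ_sum, Fintype.piFinset_univ, Finset.mul_sum]
    refine Finset.sum_congr rfl fun i _ => ?_
    rw [← Real.exp_sum, ← Real.exp_add, Finset.mul_sum]
    congr 1; ring
  rw [h2]
  have h3 : ∏ t, ∑ x, Real.exp (lam * g t x) ≤
      ∏ t : ι, (Fintype.card (X t) * Real.exp (lam ^ 2 * b ^ 2)) :=
    Finset.prod_le_prod (fun t _ => Finset.sum_nonneg fun x _ => (Real.exp_pos _).le)
      fun t _ => mgf_le (g t) hl hlb (hg t) (h0 t)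
  refine (mul_le_mul_of_nonneg_left h3 (Real.exp_pos _).le).trans (le_of_eq ?_)
  rw [Finset.prod_mul_distrib, Finset.prod_const, Fintype.card_pi, ← Real.exp_nat_mul,
    sub_eq_add_neg, Real.exp_add, Finset.card_univ]
  push_cast
  ring

theorem count_le {ι : Type} [Fintype ι] [DecidableEq ι] {X : ι → Type} [∀ t, Fintype (X t)]
    (U : ∀ t, Finset (X t)) (k : ∀ t, X t → ℕ) (hk : ∀ t, Set.InjOn (k t) (U t))
    {a κ : ℝ} (ha : 0 ≤ a)
    (hκ : ∀ n : ℕ, ∑ j ∈ range n, Real.exp (-(a * j)) ≤ Real.exp κ) (D : ℝ) :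
    ∃ T : Finset (∀ t, X t), (T.card : ℝ) ≤ Real.exp (a * D + Fintype.card ι * κ) ∧
      ∀ j, (∀ t, j t ∈ U t) → ∑ t, (k t (j t) : ℝ) ≤ D → j ∈ T := by
  classical
  refine ⟨(Fintype.piFinset U).filter fun j => ∑ t, (k t (j t) : ℝ) ≤ D, ?_,
    fun j hj hD => Finset.mem_filter.2 ⟨Fintype.mem_piFinset.2 hj, hD⟩⟩
  have h1 : (((Fintype.piFinset U).filter fun j => ∑ t, (k t (j t) : ℝ) ≤ D).card : ℝ) ≤
      ∑ j ∈ Fintype.piFinset U, Real.exp (a * D - a * ∑ t, (k t (j t) : ℝ)) := by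
    rw [Finset.card_eq_sum_ones, Nat.cast_sum]
    refine le_trans (Finset.sum_le_sum fun i hi => ?_)
      (Finset.sum_le_sum_of_subset_of_nonneg (Finset.filter_subset _ _)
        fun i _ _ => (Real.exp_pos _).le)
    have hi' : ∑ t, (k t (i t) : ℝ) ≤ D := (Finset.mem_filter.1 hi).2
    have : 0 ≤ a * D - a * ∑ t, (k t (i t) : ℝ) := by
      rw [← mul_sub]; exact mul_nonneg ha (by linarith)
    simpa using Real.one_le_exp this
  refine h1.trans ?_
  have h2 : ∑ j ∈ Fintype.piFinset U, Real.exp (a * D - a * ∑ t, (k t (j t) : ℝ)) =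
      Real.exp (a * D) * ∏ t, ∑ x ∈ U t, Real.exp (-(a * k t x)) := by
    rw [Finset.prod_univ_sum, Finset.mul_sum]
    refine Finset.sum_congr rfl fun i _ => ?_
    rw [← Real.exp_sum, ← Real.exp_add, Finset.mul_sum, Finset.sum_neg_distrib]
    congr 1
  rw [h2]
  have h3 : ∀ t, ∑ x ∈ U t, Real.exp (-(a * k t x)) ≤ Real.exp κ := by
    intro t
    have e : ∑ x ∈ U t, Real.exp (-(a * k t x)) =
        ∑ j ∈ (U t).image (k t), Real.exp (-(a * j)) := by
      rw [Finset.sum_image (hk t)]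
    rw [e]
    obtain ⟨n, hn⟩ : ∃ n, (U t).image (k t) ⊆ range n := Finset.exists_nat_subset_range _
    exact (Finset.sum_le_sum_of_subset_of_nonneg hn fun _ _ _ => (Real.exp_pos _).le).trans (hκ n)
  have h4 : ∏ t, ∑ x ∈ U t, Real.exp (-(a * k t x)) ≤ ∏ _t : ι, Real.exp κ :=
    Finset.prod_le_prod (fun t _ => Finset.sum_nonneg fun x _ => (Real.exp_pos _).le)
      fun t _ => h3 t
  refine (mul_le_mul_of_nonneg_left h4 (Real.exp_pos _).le).trans (le_of_eq ?_)
  rw [Finset.prod_const, ← Real.exp_nat_mul, ← Real.exp_add, Finset.card_univ]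

/-- After deleting a proportion `θ` of the rows and of the columns, a product of patterns with
blocks of size at most `b` allows at most `σ` positions in each row and each column. -/
def Conc (ι : Type) [Fintype ι] [DecidableEq ι] (b : ℕ) (θ σ : ℝ) : Prop :=
  0 ≤ θ ∧ 1 ≤ σ ∧ ∀ (X : ι → Type) [∀ t, Fintype (X t)] (P : ∀ t, Pat (X t) b),
    ∃ R C : Finset (∀ t, X t), (R.card : ℝ) ≤ θ * Fintype.card (∀ t, X t) ∧
      (C.card : ℝ) ≤ θ * Fintype.card (∀ t, X t) ∧
      (∀ i, i ∉ R → ∃ T : Finset (∀ t, X t), (T.card : ℝ) ≤ σ ∧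
        ∀ j, j ∉ C → (∀ t, (P t).rel (i t) (j t)) → j ∈ T) ∧
      (∀ j, j ∉ C → ∃ T : Finset (∀ t, X t), (T.card : ℝ) ≤ σ ∧
        ∀ i, i ∉ R → (∀ t, (P t).rel (i t) (j t)) → i ∈ T)

theorem Conc.mono {ι : Type} [Fintype ι] [DecidableEq ι] {b : ℕ} {θ σ θ' σ' : ℝ}
    (h : Conc ι b θ σ) (hθ : θ ≤ θ') (hσ : σ ≤ σ') : Conc ι b θ' σ' := by
  obtain ⟨h0, h1, h2⟩ := h
  refine ⟨h0.trans hθ, h1.trans hσ, fun X _ P => ?_⟩
  obtain ⟨R, C, hR, hC, hr, hc⟩ := h2 X P
  refine ⟨R, C, hR.trans (mul_le_mul_of_nonneg_right hθ (by positivity)),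
    hC.trans (mul_le_mul_of_nonneg_right hθ (by positivity)), fun i hi => ?_, fun j hj => ?_⟩
  · obtain ⟨T, hT, hT'⟩ := hr i hi
    exact ⟨T, hT.trans hσ, hT'⟩
  · obtain ⟨T, hT, hT'⟩ := hc j hj
    exact ⟨T, hT.trans hσ, hT'⟩

theorem centered {X : Type} [Fintype X] (h : X → ℕ) {b : ℕ} (hb : ∀ x, h x < b) :
    (∀ x, |(h x : ℝ) - (∑ y, (h y : ℝ)) / Fintype.card X| ≤ b) ∧
      ∑ x, ((h x : ℝ) - (∑ y, (h y : ℝ)) / Fintype.card X) = 0 := by
  constructor
  · intro x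
    have hpos : (0 : ℝ) < Fintype.card X := by
      exact_mod_cast Fintype.card_pos_iff.2 ⟨x⟩
    have h1 : (0 : ℝ) ≤ (∑ y, (h y : ℝ)) / Fintype.card X := by positivity
    have h2 : (∑ y, (h y : ℝ)) / Fintype.card X ≤ b := by
      rw [div_le_iff₀ hpos]
      calc ∑ y, (h y : ℝ) ≤ ∑ _y : X, (b : ℝ) :=
            Finset.sum_le_sum fun y _ => by exact_mod_cast (hb y).le
        _ = b * Fintype.card X := by simp [mul_comm]
    have h3 : (h x : ℝ) ≤ b := by exact_mod_cast (hb x).le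
    have h4 : (0 : ℝ) ≤ h x := by positivity
    rw [abs_le]
    constructor <;> linarith
  · rcases isEmpty_or_nonempty X with hX | hX
    · simp
    · have hpos : (Fintype.card X : ℝ) ≠ 0 := by exact_mod_cast Fintype.card_ne_zero
      rw [Finset.sum_sub_distrib, Finset.sum_const, Finset.card_univ, nsmul_eq_mul]
      field_simp
      ring

theorem conc (ι : Type) [Fintype ι] [DecidableEq ι] (b : ℕ) {lam a κ D : ℝ} (hl : 0 ≤ lam)
    (hlb : lam * b ≤ 1) (ha : 0 ≤ a) (hD : 0 ≤ D) (hκ0 : 0 ≤ κ)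
    (hκ : ∀ n : ℕ, ∑ j ∈ range n, Real.exp (-(a * j)) ≤ Real.exp κ) :
    Conc ι b (Real.exp (Fintype.card ι * (lam ^ 2 * b ^ 2) - lam * (D / 2)))
      (Real.exp (a * D + Fintype.card ι * κ)) := by
  classical
  refine ⟨(Real.exp_pos _).le, Real.one_le_exp (by positivity), fun X _ P => ?_⟩
  let μ₁ : ι → ℝ := fun t => (∑ y, ((P t).h₁ y : ℝ)) / Fintype.card (X t)
  let μ₂ : ι → ℝ := fun t => (∑ y, ((P t).h₂ y : ℝ)) / Fintype.card (X t)
  have hμ : ∀ t, μ₁ t ≤ μ₂ t := fun t => by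
    refine div_le_div_of_nonneg_right ?_ (by positivity)
    exact_mod_cast (P t).sum_le
  obtain ⟨R, hR, hR'⟩ := tail_le (fun t x => ((P t).h₁ x : ℝ) - μ₁ t) hl hlb
    (fun t => (centered _ (P t).lt₁).1) (fun t => (centered _ (P t).lt₁).2) (D / 2)
  obtain ⟨C, hC, hC'⟩ := tail_le (fun t x => -(((P t).h₂ x : ℝ) - μ₂ t)) hl hlb
    (fun t x => by rw [abs_neg]; exact (centered _ (P t).lt₂).1 x)
    (fun t => by rw [Finset.sum_neg_distrib, neg_eq_zero]; exact (centered _ (P t).lt₂).2) (D / 2)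
  have key : ∀ i j, i ∉ R → j ∉ C → (∀ t, (P t).rel (i t) (j t)) →
      ∑ t, (((P t).h₁ (i t) - (P t).h₂ (j t) : ℕ) : ℝ) ≤ D := by
    intro i j hi hj hrel
    have e1 := hR' i hi
    have e2 := hC' j hj
    have e3 : ∑ t, (((P t).h₁ (i t) - (P t).h₂ (j t) : ℕ) : ℝ) ≤
        ∑ t, ((((P t).h₁ (i t) : ℝ) - μ₁ t) + -(((P t).h₂ (j t) : ℝ) - μ₂ t)) := by
      refine Finset.sum_le_sum fun t _ => ?_
      rw [Nat.cast_sub (hrel t).2]
      linarith [hμ t]
    rw [Finset.sum_add_distrib] at e3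
    linarith
  refine ⟨R, C, hR, hC, fun i hi => ?_, fun j hj => ?_⟩
  · obtain ⟨T, hT, hT'⟩ := count_le (fun t => univ.filter fun y => (P t).rel (i t) y)
      (fun t y => (P t).h₁ (i t) - (P t).h₂ y) (fun t x hx y hy hxy => by
        have hx' : (P t).rel (i t) x := by simpa using hx
        have hy' : (P t).rel (i t) y := by simpa using hy
        refine (P t).inj₂ x y (hx'.1.symm.trans hy'.1) ?_
        have := hx'.2
        have := hy'.2
        simp only at hxy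
        omega) ha hκ D
    exact ⟨T, hT, fun j hj hrel => hT' j (fun t => by simpa using hrel t) (key i j hi hj hrel)⟩
  · obtain ⟨T, hT, hT'⟩ := count_le (fun t => univ.filter fun x => (P t).rel x (j t))
      (fun t x => (P t).h₁ x - (P t).h₂ (j t)) (fun t x hx y hy hxy => by
        have hx' : (P t).rel x (j t) := by simpa using hx
        have hy' : (P t).rel y (j t) := by simpa using hy
        refine (P t).inj₁ x y (hx'.1.trans hy'.1.symm) ?_
        have := hx'.2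
        have := hy'.2
        simp only at hxy
        omega) ha hκ D
    exact ⟨T, hT, fun i hi hrel => hT' i (fun t => by simpa using hrel t) (key i j hi hj hrel)⟩

/-- The basic non-rigidity statement for block matrices supported on a product of patterns. -/
theorem NR.core {K : Type*} [Field K] {ι : Type} [Fintype ι] [DecidableEq ι] {b : ℕ} {θ σ : ℝ}
    (hC : Conc ι b θ σ) {X : ι → Type} [∀ t, Fintype (X t)] (P : ∀ t, Pat (X t) b)
    {B : Type*} [Fintype B] (M : Matrix ((∀ t, X t) × B) ((∀ t, X t) × B) K) {ρ s : ℝ}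
    (hρ : 0 ≤ ρ) (hs : 0 ≤ s)
    (h0 : ∀ i j u v, M (i, u) (j, v) ≠ 0 → ∀ t, (P t).rel (i t) (j t))
    (h1 : ∀ i j, NR (Matrix.of fun u v => M (i, u) (j, v)) ρ s) :
    NR M (2 * θ * Fintype.card (∀ t, X t) * Fintype.card B + Fintype.card (∀ t, X t) * σ * ρ)
      (σ * s) := by
  classical
  obtain ⟨hθ, hσ, h2⟩ := hC
  obtain ⟨R, C, hR, hC, hr, hc⟩ := h2 X P
  have hσ0 : 0 ≤ σ := zero_le_one.trans hσ
  let M' : Matrix ((∀ t, X t) × B) ((∀ t, X t) × B) K :=
    Matrix.of fun x y => if x.1 ∉ R ∧ y.1 ∉ C then M x y else 0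
  have hM' : NR M' (Fintype.card (∀ t, X t) * σ * ρ) (σ * s) := by
    refine NR.blocks M' (fun i j => i ∉ R ∧ j ∉ C ∧ ∀ t, (P t).rel (i t) (j t)) hσ0 hρ hs
      (fun i => ?_) (fun j => ?_) (fun i j hP u v => ?_) (fun i j hP => ?_)
    · by_cases hi : i ∈ R
      · exact ⟨∅, by simpa using hσ0, fun j hj => absurd hi hj.1⟩
      · obtain ⟨T, hT, hT'⟩ := hr i hi
        exact ⟨T, hT, fun j hj => hT' j hj.2.1 hj.2.2⟩
    · by_cases hj : j ∈ C
      · exact ⟨∅, by simpa using hσ0, fun i hi => absurd hj hi.2.1⟩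
      · obtain ⟨T, hT, hT'⟩ := hc j hj
        exact ⟨T, hT, fun i hi => hT' i hi.1 hi.2.2⟩
    · simp only [M', Matrix.of_apply]
      split_ifs with h
      · by_contra hne
        exact hP ⟨h.1, h.2, h0 i j u v hne⟩
      · rfl
    · have : (Matrix.of fun u v => M' (i, u) (j, v)) = Matrix.of fun u v => M (i, u) (j, v) := by
        ext u v
        simp [M', hP.1, hP.2.1]
      rw [this]
      exact h1 i j
  have hM'' : NR (M - M') (2 * θ * Fintype.card (∀ t, X t) * Fintype.card B) 0 := by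
    refine ⟨0, Sp.zero le_rfl, ?_⟩
    rw [sub_zero]
    have h3 := rank_le_of_cover (M - M') (R ×ˢ univ) (C ×ˢ univ) (fun x y hxy => by
      by_contra hn
      apply hxy
      have hx : x.1 ∉ R := fun h => hn (Or.inl (by simp [h]))
      have hy : y.1 ∉ C := fun h => hn (Or.inr (by simp [h]))
      simp [M', hx, hy])
    rw [Finset.card_product, Finset.card_product, Finset.card_univ] at h3
    have h4 : ((M - M').rank : ℝ) ≤ R.card * Fintype.card B + C.card * Fintype.card B := by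
      exact_mod_cast h3
    have h5 : (0 : ℝ) ≤ Fintype.card B := by positivity
    have h6 := mul_le_mul_of_nonneg_right hR h5
    have h7 := mul_le_mul_of_nonneg_right hC h5
    linarith
  have := hM''.add hM'
  simpa using this

end Pool.Agent.H571Z
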