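import Pool.Agent.H571Z.Main

set_option autoImplicit false
set_option linter.unusedSectionVars false

/-!
Consequences of the non-rigidity theorem in the usual forms.
-/

namespace Pool.Agent.H571Z

open Finset Matrix

universe u v

theorem Sp.total {K : Type*} [Field K] {m n : Type*} [Fintype m] [Fintype n] {S : Matrix m n K}
    {s : ℝ} (h : Sp S s) : (({p : m × n | S p.1 p.2 ≠ 0}.ncard : ℕ) : ℝ) ≤ Fintype.card m * s := by
  classical
  obtain ⟨h0, h1, -⟩ := h
  choose T hT hT' using h1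
  have h2 : {p : m × n | S p.1 p.2 ≠ 0} ⊆
      ((univ.biUnion fun i => (T i).image fun j => (i, j)) : Finset (m × n)) := by
    intro p hp
    exact Finset.mem_coe.2 (Finset.mem_biUnion.2 ⟨p.1, mem_univ _,
      Finset.mem_image.2 ⟨p.2, hT' _ _ hp, rfl⟩⟩)
  have h3 := Set.ncard_le_ncard h2 (Finset.finite_toSet _)
  rw [Set.ncard_coe_finset] at h3
  refine le_trans (by exact_mod_cast h3) (card_biUnion_le_real _ _ (by simp) (fun i => ?_) h0)
  exact le_trans (by exact_mod_cast Finset.card_image_le) (hT i)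

theorem Sp.row {K : Type*} [Field K] {m n : Type*} {S : Matrix m n K}
    {s : ℝ} (h : Sp S s) (i : m) : (({j | S i j ≠ 0}.ncard : ℕ) : ℝ) ≤ s := by
  obtain ⟨T, hT, hT'⟩ := h.2.1 i
  have h3 := Set.ncard_le_ncard (s := {j | S i j ≠ 0}) (t := T) hT' (Finset.finite_toSet _)
  rw [Set.ncard_coe_finset] at h3
  exact le_trans (by exact_mod_cast h3) hT

theorem Sp.col {K : Type*} [Field K] {m n : Type*} {S : Matrix m n K}
    {s : ℝ} (h : Sp S s) (j : n) : (({i | S i j ≠ 0}.ncard : ℕ) : ℝ) ≤ s := by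
  obtain ⟨T, hT, hT'⟩ := h.2.2 j
  have h3 := Set.ncard_le_ncard (s := {i | S i j ≠ 0}) (t := T) hT' (Finset.finite_toSet _)
  rw [Set.ncard_coe_finset] at h3
  exact le_trans (by exact_mod_cast h3) hT

/-- `NR` in terms of a nearby matrix of small rank. -/
theorem NR.near {K : Type*} [Field K] {m n : Type*} [Fintype n] {M : Matrix m n K} {ρ s : ℝ}
    (h : NR M ρ s) : ∃ A : Matrix m n K, (A.rank : ℝ) ≤ ρ ∧
      (∀ i, (({j | A i j ≠ M i j}.ncard : ℕ) : ℝ) ≤ s) ∧
      (∀ j, (({i | A i j ≠ M i j}.ncard : ℕ) : ℝ) ≤ s) := by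
  obtain ⟨S, hS, hr⟩ := h
  have e : ∀ i j, ((M - S) i j ≠ M i j) = (S i j ≠ 0) := fun i j => by simp
  refine ⟨M - S, hr, fun i => ?_, fun j => ?_⟩
  · simp only [e]; exact hS.row i
  · simp only [e]; exact hS.col j

theorem eventually_rpow_le {η c : ℝ} (hη : 0 < η) (hc : 0 < c) :
    ∃ N₀ : ℕ, ∀ N : ℕ, N₀ ≤ N → (N : ℝ) ^ (1 - η) ≤ c * N := by
  have h := ((tendsto_rpow_neg_atTop hη).comp tendsto_natCast_atTop_atTop).eventually_le_const hc
  obtain ⟨N₀, hN₀⟩ := Filter.eventually_atTop.1 h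
  refine ⟨max N₀ 1, fun N hN => ?_⟩
  have h1 := hN₀ N ((le_max_left _ _).trans hN)
  have h2 : (0 : ℝ) < N := by exact_mod_cast (le_max_right _ _).trans hN
  rw [sub_eq_add_neg, Real.rpow_add h2, Real.rpow_one, mul_comm]
  exact mul_le_mul_of_nonneg_right h1 h2.le

/-- Matrices whose entries depend only on `i - j`. -/
theorem toeplitz_nr {ε : ℝ} (hε : 0 < ε) : ∃ η : ℝ, 0 < η ∧ ∃ N₀ : ℕ,
    ∀ (F : Type u) [Field F] (N : ℕ) (t : ℤ → F), N₀ ≤ N →
      NR (Matrix.of fun i j : Fin N => t ((i : ℤ) - j)) ((N : ℝ) ^ (1 - η)) ((N : ℝ) ^ ε) := by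
  obtain ⟨η, hη, N₀, h⟩ := main_nr.{u, 0} (ε := ε / 2) (by positivity)
  set η' := min η 1 with hη'
  have hη0 : 0 < η' := lt_min hη one_pos
  obtain ⟨N₁, hN₁⟩ := eventually_rpow_le (η := η' / 2) (c := 1 / 2) (by positivity) (by norm_num)
  refine ⟨η' / 2, by positivity, max (max N₀ N₁) 2, fun F _ N t hN => ?_⟩
  have hN2 : 2 ≤ N := (le_max_right _ _).trans hN
  have hN0 : N₀ ≤ N := ((le_max_left _ _).trans (le_max_left _ _)).trans hN
  have hN1 := hN₁ N (((le_max_right _ _).trans (le_max_left _ _)).trans hN)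
  have : NeZero (2 * N) := ⟨by omega⟩
  have h1 := h F (ZMod (2 * N)) (fun z => t ((z + (N : ℕ)).val - N)) (by rw [ZMod.card]; omega)
  have hinj : Function.Injective fun i : Fin N => ((i : ℕ) : ZMod (2 * N)) := fun i j hij => by
    have := congrArg ZMod.val hij
    simp only at this
    rw [ZMod.val_cast_of_lt (by omega), ZMod.val_cast_of_lt (by omega)] at this
    exact Fin.ext this
  have h2 := h1.submatrix _ _ hinj hinj
  have e : (circ fun z : ZMod (2 * N) => t ((z + (N : ℕ)).val - N)).submatrix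
      (fun i : Fin N => ((i : ℕ) : ZMod (2 * N))) (fun i : Fin N => ((i : ℕ) : ZMod (2 * N))) =
      Matrix.of fun i j : Fin N => t ((i : ℤ) - j) := by
    ext i j
    simp only [circ, Matrix.submatrix_apply, Matrix.of_apply]
    have e1 : ((i : ℕ) : ZMod (2 * N)) - (j : ℕ) + (N : ℕ) = ((i + N - j : ℕ) : ZMod (2 * N)) := by
      rw [Nat.cast_sub (by omega)]; push_cast; ring
    rw [e1, ZMod.val_cast_of_lt (by omega), Nat.cast_sub (by omega)]
    congr 1
    push_cast; ring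
  rw [e, ZMod.card] at h2
  have hN' : (2 : ℝ) ≤ N := by exact_mod_cast hN2
  have hpos : (0 : ℝ) < N := by linarith
  refine h2.mono ?_ ?_
  · have h3 : ((2 * N : ℕ) : ℝ) ^ (1 - η) ≤ ((2 * N : ℕ) : ℝ) ^ (1 - η') :=
      Real.rpow_le_rpow_of_exponent_le (by push_cast; linarith) (by linarith [min_le_left η 1])
    have h4 : ((2 * N : ℕ) : ℝ) ^ (1 - η') ≤ 2 * (N : ℝ) ^ (1 - η') := by
      push_cast
      rw [Real.mul_rpow (by norm_num) hpos.le]
      refine mul_le_mul_of_nonneg_right ?_ (by positivity)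
      calc (2 : ℝ) ^ (1 - η') ≤ 2 ^ (1 : ℝ) :=
            Real.rpow_le_rpow_of_exponent_le (by norm_num) (by linarith)
        _ = 2 := Real.rpow_one 2
    have h5 : (N : ℝ) ^ (1 - η') * N = (N : ℝ) ^ (1 - η' / 2) * (N : ℝ) ^ (1 - η' / 2) := by
      rw [← Real.rpow_add hpos, ← Real.rpow_add_one hpos.ne']
      congr 1; ring
    have h6 : 0 < (N : ℝ) ^ (1 - η' / 2) := by positivity
    have h7 : 2 * (N : ℝ) ^ (1 - η') ≤ (N : ℝ) ^ (1 - η' / 2) := by
      refine le_of_mul_le_mul_right ?_ hpos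
      nlinarith
    linarith
  · calc ((2 * N : ℕ) : ℝ) ^ (ε / 2) ≤ ((N : ℝ) ^ (2 : ℝ)) ^ (ε / 2) := by
          refine Real.rpow_le_rpow (by positivity) ?_ (by positivity)
          push_cast
          rw [Real.rpow_two]
          nlinarith
      _ = (N : ℝ) ^ ε := by
          rw [← Real.rpow_mul hpos.le]
          congr 1; ring

theorem choose_two_add (i j : ℕ) : (i + j).choose 2 = i.choose 2 + i * j + j.choose 2 := by
  induction j with
  | zero => simp
  | succ j ih =>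
    rw [← Nat.add_assoc, Nat.choose_succ_succ' (i + j), Nat.choose_succ_succ' j, ih]
    simp only [Nat.choose_one_right]
    ring

/-- Matrices `(ω ^ (i j))`. -/
theorem fourier_nr {ε : ℝ} (hε : 0 < ε) : ∃ η : ℝ, 0 < η ∧ ∃ N₀ : ℕ,
    ∀ (F : Type u) [Field F] (N : ℕ) (ω : F), ω ≠ 0 → N₀ ≤ N →
      NR (Matrix.of fun i j : Fin N => ω ^ ((i : ℕ) * j)) ((N : ℝ) ^ (1 - η)) ((N : ℝ) ^ ε) := by
  obtain ⟨η, hη, N₀, h⟩ := toeplitz_nr.{u} hε
  refine ⟨η, hη, N₀, fun F _ N ω hω hN => ?_⟩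
  have h1 := (h F N (fun z => ω ^ ((z + N - 1).toNat.choose 2)) hN).submatrix id Fin.rev
    Function.injective_id Fin.rev_injective
  have hd : NR (Matrix.diagonal fun i : Fin N => (ω ^ ((i : ℕ).choose 2))⁻¹) 0 1 :=
    NR.of_sp (Sp.diag fun i j hij => by
      by_contra hne
      exact hij (Matrix.diagonal_apply_ne _ hne))
  have h2 := (hd.mul h1).mul hd
  simp only [zero_add, add_zero, one_mul, mul_one] at h2
  convert h2 using 1
  ext i j
  simp only [Matrix.mul_diagonal, Matrix.diagonal_mul, Matrix.submatrix_apply, Matrix.of_apply,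
    id, Fin.val_rev]
  have e : ((i : ℕ) - ((N - (j + 1) : ℕ) : ℤ) + N - 1).toNat = i + j := by
    have := j.2
    omega
  rw [e, choose_two_add, pow_add, pow_add]
  field_simp

end Pool.Agent.H571Z
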