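import Pool.Agent.H571Z.Toep

set_option autoImplicit false
set_option linter.unusedSectionVars false

/-!
The Fourier matrix factors through lower triangular Toeplitz matrices (Gaussian binomials).
-/

namespace Pool.Agent.H571Z

open Finset Matrix Polynomial

variable {K : Type*} [Field K]

/-- `(ω - 1) ⋯ (ω ^ n - 1)` -/
def qf (ω : K) (n : ℕ) : K := ∏ k ∈ range n, (ω ^ (k + 1) - 1)

/-- Newton polynomials at the nodes `ω ^ s` -/
def nw (ω : K) (k : ℕ) (x : K) : K := ∏ s ∈ range k, (x - ω ^ s)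

/-- Gaussian binomial coefficients -/
def gb (ω : K) : ℕ → ℕ → K
  | _, 0 => 1
  | 0, _ + 1 => 0
  | j + 1, k + 1 => gb ω j k + ω ^ (k + 1) * gb ω j (k + 1)

theorem gb_zero (ω : K) (j : ℕ) : gb ω j 0 = 1 := by cases j <;> rfl

theorem gb_eq_zero (ω : K) : ∀ j k : ℕ, j < k → gb ω j k = 0
  | 0, _ + 1, _ => rfl
  | j + 1, k + 1, h => by
    rw [gb, gb_eq_zero ω j k (by omega), gb_eq_zero ω j (k + 1) (by omega)]; simp

theorem qf_succ (ω : K) (n : ℕ) : qf ω (n + 1) = qf ω n * (ω ^ (n + 1) - 1) :=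
  Finset.prod_range_succ _ _

theorem qf_zero (ω : K) : qf ω 0 = 1 := rfl

theorem gb_mul (ω : K) : ∀ j k e : ℕ, j = k + e → gb ω j k * qf ω k * qf ω e = qf ω j
  | j, 0, e, h => by rw [gb_zero, qf_zero, h]; simp
  | 0, k + 1, e, h => by omega
  | j + 1, k + 1, 0, h => by
    have h1 := gb_mul ω j k 0 (by omega)
    obtain rfl : j = k := by omega
    rw [gb, gb_eq_zero ω j (j + 1) (by omega), qf_succ]
    linear_combination (ω ^ (j + 1) - 1) * h1
  | j + 1, k + 1, e + 1, h => by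
    have h1 := gb_mul ω j k (e + 1) (by omega)
    have h2 := gb_mul ω j (k + 1) e (by omega)
    have h3 : ω ^ (j + 1) = ω ^ (k + 1) * ω ^ (e + 1) := by rw [← pow_add, h]
    rw [gb, qf_succ ω j, h3]
    rw [qf_succ ω k] at h2 ⊢
    rw [qf_succ ω e] at h1 ⊢
    linear_combination (ω ^ (k + 1) - 1) * h1 + ω ^ (k + 1) * (ω ^ (e + 1) - 1) * h2

theorem nw_succ (ω : K) (k : ℕ) (x : K) : nw ω (k + 1) x = nw ω k x * (x - ω ^ k) :=
  Finset.prod_range_succ _ _

theorem pow_eq_sum_nw (ω x : K) (j : ℕ) :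
    x ^ j = ∑ k ∈ range (j + 1), gb ω j k * nw ω k x := by
  induction j with
  | zero => simp [gb, nw]
  | succ j ih =>
    have e1 : ∑ k ∈ range (j + 1), ω ^ k * gb ω j k * nw ω k x =
        ∑ k ∈ range (j + 1), ω ^ (k + 1) * gb ω j (k + 1) * nw ω (k + 1) x + nw ω 0 x := by
      rw [Finset.sum_range_succ', Finset.sum_range_succ, gb_eq_zero ω j (j + 1) (by omega), gb_zero]
      simp
    rw [Finset.sum_range_succ', gb_zero, one_mul, pow_succ, ih, Finset.sum_mul]
    simp only [gb, add_mul, Finset.sum_add_distrib]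
    rw [add_assoc, ← e1, ← Finset.sum_add_distrib]
    refine Finset.sum_congr rfl fun k _ => ?_
    rw [nw_succ]; ring

theorem nw_pow_mul (ω : K) : ∀ k e : ℕ,
    nw ω k (ω ^ (k + e)) * qf ω e = (∏ s ∈ range k, ω ^ s) * qf ω (k + e)
  | 0, e => by simp [nw]
  | k + 1, e => by
    have h1 := nw_pow_mul ω k (e + 1)
    have h2 : k + 1 + e = k + (e + 1) := by omega
    rw [h2, nw_succ, Finset.prod_range_succ]
    rw [qf_succ ω e] at h1
    have h3 : ω ^ (k + (e + 1)) = ω ^ k * ω ^ (e + 1) := pow_add _ _ _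
    generalize nw ω k (ω ^ (k + (e + 1))) = A at h1 ⊢
    rw [h3]
    linear_combination ω ^ k * h1

theorem nw_pow_eq_zero (ω : K) {i k : ℕ} (h : i < k) : nw ω k (ω ^ i) = 0 :=
  Finset.prod_eq_zero (Finset.mem_range.2 h) (sub_self _)

/-- the Fourier matrix -/
def Fm (ω : K) (n : ℕ) : Matrix (Fin n) (Fin n) K := Matrix.of fun i j => ω ^ ((i : ℕ) * j)

theorem Fm_eq (ω : K) {n : ℕ} (hω : ∀ k, 0 < k → k < n → ω ^ k ≠ 1) :
    Fm ω n = Matrix.diagonal (fun i : Fin n => qf ω i) * Tz (fun d => (qf ω d)⁻¹) n *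
      Matrix.diagonal (fun k : Fin n => (∏ s ∈ range k, ω ^ s) * (qf ω k)⁻¹) *
      (Tz (fun d => (qf ω d)⁻¹) n)ᵀ * Matrix.diagonal (fun i : Fin n => qf ω i) := by
  have hq : ∀ d, d < n → qf ω d ≠ 0 := fun d hd =>
    Finset.prod_ne_zero_iff.2 fun k hk => sub_ne_zero.2
      (hω _ (by omega) (by have := Finset.mem_range.1 hk; omega))
  ext i j
  rw [Matrix.mul_diagonal, Matrix.mul_apply]
  simp only [Matrix.mul_diagonal, Matrix.diagonal_mul, Matrix.transpose_apply, Tz, Fm,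
    Matrix.of_apply]
  rw [pow_mul, pow_eq_sum_nw ω _ j, Finset.sum_mul,
    Finset.sum_subset (Finset.range_subset_range.2 (show (j : ℕ) + 1 ≤ n from j.2))
      (fun k _ hk => by
        rw [gb_eq_zero ω j k (by simpa using hk), zero_mul]),
    ← Fin.sum_univ_eq_sum_range (fun k => gb ω j k * nw ω k (ω ^ (i : ℕ))) n]
  refine Finset.sum_congr rfl fun k _ => ?_
  by_cases h1 : (k : ℕ) ≤ i
  · by_cases h2 : (k : ℕ) ≤ j
    · rw [if_pos h1, if_pos h2]
      have e1 := gb_mul ω j k (j - k) (by omega)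
      have e2 := nw_pow_mul ω k (i - k)
      rw [show (k : ℕ) + (i - k) = i by omega] at e2
      have a1 := hq k k.2
      have a2 := hq (i - k) (by have := i.2; omega)
      have a3 := hq (j - k) (by have := j.2; omega)
      rw [← e1]
      field_simp
      linear_combination gb ω j k * e2
    · rw [if_neg h2, gb_eq_zero ω j k (by omega)]; simp
  · rw [if_neg h1, nw_pow_eq_zero ω (by omega)]; simp

theorem Fm_bprd (ω : K) {n c : ℕ} (hω : ∀ k, 0 < k → k < n → ω ^ k ≠ 1) (hc : 0 < c)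
    (hn : n ≤ c * c) (g : ℕ → K) (hg0 : ∀ u < c, g u ≠ 0)
    (hg : ∀ u < c, ∀ v < c, g u = g v → u = v) : BPrd c 19 (2 * (n * n)) (Fm ω n) := by
  rw [Fm_eq ω hω]
  have hT := Tz_bprd (fun d => (qf ω d)⁻¹) hc hn g hg0 hg
  have hD : ∀ d : Fin n → K, BPrd c 1 0 (Matrix.diagonal d) := fun d =>
    (Elem.diagonal hc d).prd.bprd
  exact (((((hD _).mul hT).mul (hD _)).mul hT.tr).mul (hD _)).mono (by omega)

/-- The shift matrices of the group `X` are simultaneously brought to a triangular pattern by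
(border) products of `k` block triangular matrices. -/
def Lev (K : Type*) [Field K] (X : Type) [Fintype X] [DecidableEq X] [AddCommGroup X]
    (b k d : ℕ) : Prop :=
  ∃ (W W' : Matrix X X K) (P : Pat X b), BPrd b k d W ∧ BPrd b k d W' ∧ ∀ g : X,
    ∃ J : Matrix X X K, (Matrix.of fun x y => if x - y = g then (1 : K) else 0) = W * J * W' ∧
      ∀ i j, J i j ≠ 0 → P.rel i j

/-- residues as numbers below `n` -/
def zfin (n : ℕ) [NeZero n] : ZMod n ≃ Fin n where
  toFun x := ⟨x.val, ZMod.val_lt x⟩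
  invFun i := ((i : ℕ) : ZMod n)
  left_inv x := by simp
  right_inv i := Fin.ext (ZMod.val_cast_of_lt i.2)

theorem zfin_val (n : ℕ) [NeZero n] (x : ZMod n) : (zfin n x : ℕ) = x.val := rfl

theorem lev_root {n : ℕ} [NeZero n] {ω : K} (hω : IsPrimitiveRoot ω n) {c : ℕ} (hc : 0 < c)
    (hn : n ≤ c * c) (g : ℕ → K) (hg0 : ∀ u < c, g u ≠ 0)
    (hg : ∀ u < c, ∀ v < c, g u = g v → u = v) : Lev K (ZMod n) c 19 (2 * (n * n)) := by
  have hn0 : 0 < n := NeZero.pos n
  have hω0 : ω ≠ 0 := hω.ne_zero hn0.ne'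
  have hnK : (n : K) ≠ 0 := by
    have := hω.neZero'
    exact NeZero.ne _
  refine ⟨(Fm ω n).submatrix (zfin n) (zfin n), (Fm ω⁻¹ n).submatrix (zfin n) (zfin n),
    Pat.diag _ hc,
    (Fm_bprd ω (fun k h1 h2 => hω.pow_ne_one_of_pos_of_lt h1.ne' h2) hc hn g hg0 hg).comap _,
    (Fm_bprd ω⁻¹ (fun k h1 h2 => hω.inv.pow_ne_one_of_pos_of_lt h1.ne' h2) hc hn g hg0 hg).comap _,
    fun a => ⟨Matrix.diagonal fun ξ => ω⁻¹ ^ (a.val * ξ.val) * (n : K)⁻¹, ?_, fun i j hij => ?_⟩⟩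
  · ext x y
    rw [Matrix.mul_apply]
    simp only [Matrix.mul_diagonal, Matrix.submatrix_apply, Fm, Matrix.of_apply, zfin_val]
    set z : K := ω ^ x.val * (ω ^ (a + y).val)⁻¹ with hz
    have hadd : ω ^ (a + y).val = ω ^ a.val * ω ^ y.val := by
      rw [ZMod.val_add, ← pow_add]
      exact (pow_eq_pow_mod _ hω.pow_eq_one).symm
    have e1 : ∀ ξ : ZMod n, ω ^ (x.val * ξ.val) * (ω⁻¹ ^ (a.val * ξ.val) * (n : K)⁻¹) *
        ω⁻¹ ^ (ξ.val * y.val) = (n : K)⁻¹ * z ^ ξ.val := by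
      intro ξ
      rw [hz, hadd, mul_comm ξ.val, pow_mul, pow_mul, pow_mul, mul_inv, mul_pow, mul_pow, inv_pow,
        inv_pow]
      ring
    simp only [e1]
    rw [← Finset.mul_sum]
    have e2 : ∑ ξ : ZMod n, z ^ ξ.val = ∑ i ∈ range n, z ^ i := by
      rw [← Fin.sum_univ_eq_sum_range (fun i => z ^ i) n]
      exact Equiv.sum_comp (zfin n) fun i => z ^ (i : ℕ)
    rw [e2]
    split_ifs with h
    · have : x = a + y := by rw [← h]; abel
      have hz1 : z = 1 := by rw [hz, ← this, mul_inv_cancel₀ (pow_ne_zero _ hω0)]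
      simp [hz1, hnK]
    · have hz1 : z ≠ 1 := by
        intro h1
        rw [hz, mul_inv_eq_one₀ (pow_ne_zero _ hω0)] at h1
        have := ZMod.val_injective n (hω.pow_inj (ZMod.val_lt _) (ZMod.val_lt _) h1)
        exact h (by rw [this]; abel)
      have hzn : z ^ n = 1 := by
        rw [hz, mul_pow, inv_pow, ← pow_mul, ← pow_mul, mul_comm x.val, mul_comm (a + y).val,
          pow_mul, pow_mul, hω.pow_eq_one]
        simp
      have := geom_sum_mul z n
      rw [hzn, sub_self] at this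
      rw [(mul_eq_zero.1 this).resolve_right (sub_ne_zero.2 hz1), mul_zero]
  · have : i = j := by
      by_contra h
      exact hij (Matrix.diagonal_apply_ne _ h)
    subst this
    exact Pat.diag_rel hc i

end Pool.Agent.H571Z
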