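import Pool.Agent.H571Z.Conc

set_option autoImplicit false
set_option linter.unusedSectionVars false

/-!
Kronecker products of many matrices, each a (border) product of boundedly many block triangular
matrices, are not rigid.
-/

namespace Pool.Agent.H571Z

open Finset Matrix Polynomial
open scoped Kronecker

section kron
variable {ι : Type} [Fintype ι] [DecidableEq ι] {X : ι → Type} [∀ t, Fintype (X t)]
  [∀ t, DecidableEq (X t)]

/-- Kronecker product of a family of square matrices. -/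
def kron {R : Type*} [CommRing R] (M : ∀ t, Matrix (X t) (X t) R) :
    Matrix (∀ t, X t) (∀ t, X t) R :=
  Matrix.of fun i j => ∏ t, M t (i t) (j t)

theorem kron_mul {R : Type*} [CommRing R] (M N : ∀ t, Matrix (X t) (X t) R) :
    kron (fun t => M t * N t) = kron M * kron N := by
  ext i j
  simp only [kron, Matrix.of_apply, Matrix.mul_apply]
  rw [Finset.prod_univ_sum, Fintype.piFinset_univ]
  exact Finset.sum_congr rfl fun k _ => Finset.prod_mul_distrib

theorem kron_one {R : Type*} [CommRing R] :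
    kron (fun t => (1 : Matrix (X t) (X t) R)) = 1 := by
  ext i j
  simp only [kron, Matrix.of_apply, Matrix.one_apply]
  by_cases h : i = j
  · simp [h]
  · rw [if_neg h]
    obtain ⟨t, ht⟩ := Function.ne_iff.1 h
    exact Finset.prod_eq_zero (Finset.mem_univ t) (if_neg ht)

end kron

variable {K : Type*} [Field K]

section one
variable {X : Type} [Fintype X] [DecidableEq X]

/-- `E` is supported on a pattern with blocks of size at most `b`. -/
def Elem (b : ℕ) (E : Matrix X X K) : Prop :=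
  ∃ P : Pat X b, ∀ i j, E i j ≠ 0 → P.rel i j

/-- products of `k` block triangular matrices -/
def Prd (b : ℕ) : ℕ → Matrix X X K → Prop
  | 0, M => M = 1
  | k + 1, M => ∃ E M', Elem b E ∧ Prd b k M' ∧ M = E * M'

theorem Elem.prd {b : ℕ} {E : Matrix X X K} (h : Elem b E) : Prd b 1 E :=
  ⟨E, 1, h, rfl, (Matrix.mul_one E).symm⟩

theorem Prd.mul {b : ℕ} : ∀ {k l : ℕ} {M N : Matrix X X K}, Prd b k M → Prd b l N →
    Prd b (k + l) (M * N)
  | 0, l, M, N, hM, hN => by
    have : M = 1 := hM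
    rw [this, Matrix.one_mul, Nat.zero_add]; exact hN
  | k + 1, l, M, N, hM, hN => by
    obtain ⟨E, M', hE, hM', rfl⟩ := hM
    rw [Nat.add_right_comm]
    exact ⟨E, M' * N, hE, hM'.mul hN, Matrix.mul_assoc _ _ _⟩

/-- the transposed pattern -/
def Pat.tr {b : ℕ} (P : Pat X b) : Pat X b where
  β₁ := P.β₂
  h₁ := fun x => b - 1 - P.h₂ x
  β₂ := P.β₁
  h₂ := fun x => b - 1 - P.h₁ x
  inj₁ := fun x y h h' => P.inj₂ x y h (by have := P.lt₂ x; have := P.lt₂ y; omega)
  inj₂ := fun x y h h' => P.inj₁ x y h (by have := P.lt₁ x; have := P.lt₁ y; omega)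
  lt₁ := fun x => by have := P.lt₂ x; omega
  lt₂ := fun x => by have := P.lt₁ x; omega
  sum_le := by
    have h1 : ∑ x, (b - 1 - P.h₂ x) + ∑ x, P.h₂ x = ∑ _x : X, (b - 1) := by
      rw [← Finset.sum_add_distrib]
      exact Finset.sum_congr rfl fun x _ => by have := P.lt₂ x; omega
    have h2 : ∑ x, (b - 1 - P.h₁ x) + ∑ x, P.h₁ x = ∑ _x : X, (b - 1) := by
      rw [← Finset.sum_add_distrib]
      exact Finset.sum_congr rfl fun x _ => by have := P.lt₁ x; omega
    have := P.sum_le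
    omega

theorem Elem.tr {b : ℕ} {E : Matrix X X K} (h : Elem b E) : Elem b Eᵀ := by
  obtain ⟨P, hP⟩ := h
  refine ⟨P.tr, fun i j hij => ?_⟩
  have := hP j i hij
  refine ⟨this.1.symm, ?_⟩
  have h2 := this.2
  show b - 1 - P.h₁ j ≤ b - 1 - P.h₂ i
  omega

theorem Prd.tr {b : ℕ} : ∀ {k : ℕ} {M : Matrix X X K}, Prd b k M → Prd b k Mᵀ
  | 0, M, hM => by
    have : M = 1 := hM
    rw [this, Matrix.transpose_one]; rfl
  | k + 1, M, hM => by
    obtain ⟨E, M', hE, hM', rfl⟩ := hM
    rw [Matrix.transpose_mul]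
    exact hM'.tr.mul hE.tr.prd

/-- the diagonal pattern -/
noncomputable def Pat.diag (X : Type) [Fintype X] {b : ℕ} (hb : 1 ≤ b) : Pat X b where
  β₁ := fun x => Fintype.equivFin X x
  h₁ := fun _ => 0
  β₂ := fun x => Fintype.equivFin X x
  h₂ := fun _ => 0
  inj₁ := fun _ _ h _ => (Fintype.equivFin X).injective (Fin.ext h)
  inj₂ := fun _ _ h _ => (Fintype.equivFin X).injective (Fin.ext h)
  lt₁ := fun _ => hb
  lt₂ := fun _ => hb
  sum_le := le_rfl

theorem Pat.diag_rel {b : ℕ} (hb : 1 ≤ b) (x : X) : (Pat.diag X hb).rel x x := ⟨rfl, le_rfl⟩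

theorem Elem.diagonal {b : ℕ} (hb : 1 ≤ b) (d : X → K) : Elem b (Matrix.diagonal d) := by
  refine ⟨Pat.diag X hb, fun i j hij => ?_⟩
  have : i = j := by
    by_contra h
    exact hij (Matrix.diagonal_apply_ne _ h)
  subst this
  exact Pat.diag_rel hb i

/-- limits of products of `k` block triangular matrices along a polynomial curve of degree `d` -/
def BPrd (b k d : ℕ) (M : Matrix X X K) : Prop :=
  ∃ Q : Matrix X X K[X], (∀ i j, (Q i j).natDegree ≤ d) ∧ Q.map (evalRingHom 0) = M ∧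
    ∀ δ : K, δ ≠ 0 → Prd b k (Q.map (evalRingHom δ))

theorem Prd.bprd {b k : ℕ} {M : Matrix X X K} (h : Prd b k M) : BPrd b k 0 M := by
  have e : ∀ δ : K, (M.map (C : K → K[X])).map (evalRingHom δ) = M := fun δ => by
    ext i j; simp
  exact ⟨M.map C, fun i j => by simp, e 0, fun δ _ => by rw [e]; exact h⟩

theorem natDegree_mul_entry_le {Q Q' : Matrix X X K[X]} {d d' : ℕ}
    (h : ∀ i j, (Q i j).natDegree ≤ d) (h' : ∀ i j, (Q' i j).natDegree ≤ d') (i j : X) :
    ((Q * Q') i j).natDegree ≤ d + d' := by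
  rw [Matrix.mul_apply]
  exact natDegree_sum_le_of_forall_le _ _ fun k _ =>
    natDegree_mul_le.trans (add_le_add (h i k) (h' k j))

theorem BPrd.mul {b k l d e : ℕ} {M N : Matrix X X K} (hM : BPrd b k d M) (hN : BPrd b l e N) :
    BPrd b (k + l) (d + e) (M * N) := by
  obtain ⟨Q, h1, h2, h3⟩ := hM
  obtain ⟨Q', h1', h2', h3'⟩ := hN
  refine ⟨Q * Q', natDegree_mul_entry_le h1 h1', ?_, fun δ hδ => ?_⟩
  · rw [Matrix.map_mul, h2, h2']
  · rw [Matrix.map_mul]
    exact (h3 δ hδ).mul (h3' δ hδ)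

theorem BPrd.tr {b k d : ℕ} {M : Matrix X X K} (hM : BPrd b k d M) : BPrd b k d Mᵀ := by
  obtain ⟨Q, h1, h2, h3⟩ := hM
  refine ⟨Qᵀ, fun i j => h1 j i, ?_, fun δ hδ => ?_⟩
  · rw [Matrix.transpose_map, h2]
  · rw [Matrix.transpose_map]
    exact (h3 δ hδ).tr

theorem BPrd.mono {b k d d' : ℕ} {M : Matrix X X K} (hM : BPrd b k d M) (hd : d ≤ d') :
    BPrd b k d' M := by
  obtain ⟨Q, h1, h2, h3⟩ := hM
  exact ⟨Q, fun i j => (h1 i j).trans hd, h2, h3⟩

variable {Y : Type} [Fintype Y] [DecidableEq Y]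

/-- transport of a pattern along a bijection -/
def Pat.comap {b : ℕ} (P : Pat X b) (e : Y ≃ X) : Pat Y b where
  β₁ := fun y => P.β₁ (e y)
  h₁ := fun y => P.h₁ (e y)
  β₂ := fun y => P.β₂ (e y)
  h₂ := fun y => P.h₂ (e y)
  inj₁ := fun _ _ h h' => e.injective (P.inj₁ _ _ h h')
  inj₂ := fun _ _ h h' => e.injective (P.inj₂ _ _ h h')
  lt₁ := fun _ => P.lt₁ _
  lt₂ := fun _ => P.lt₂ _
  sum_le := by
    rw [Equiv.sum_comp e P.h₁, Equiv.sum_comp e P.h₂]
    exact P.sum_le

theorem Prd.comap {b : ℕ} (e : Y ≃ X) : ∀ {k : ℕ} {M : Matrix X X K}, Prd b k M →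
    Prd b k (M.submatrix e e)
  | 0, M, hM => by
    have : M = 1 := hM
    rw [this, Matrix.submatrix_one_equiv]; rfl
  | k + 1, M, hM => by
    obtain ⟨E, M', ⟨P, hP⟩, hM', rfl⟩ := hM
    exact ⟨E.submatrix e e, M'.submatrix e e, ⟨P.comap e, fun i j hij => hP _ _ hij⟩,
      hM'.comap e, (Matrix.submatrix_mul_equiv E M' e e e).symm⟩

theorem BPrd.comap {b k d : ℕ} (e : Y ≃ X) {M : Matrix X X K} (hM : BPrd b k d M) :
    BPrd b k d (M.submatrix e e) := by
  obtain ⟨Q, h1, h2, h3⟩ := hM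
  refine ⟨Q.submatrix e e, fun i j => h1 _ _, ?_, fun δ hδ => ?_⟩
  · rw [← h2]; rfl
  · exact (h3 δ hδ).comap e

end one

section many
variable {ι : Type} [Fintype ι] [DecidableEq ι] {X : ι → Type} [∀ t, Fintype (X t)]
  [∀ t, DecidableEq (X t)] {b : ℕ} {θ σ : ℝ} (B : Type*) [Fintype B] [DecidableEq B]

theorem NR.kron_elem (hC : Conc ι b θ σ) (E : ∀ t, Matrix (X t) (X t) K)
    (hE : ∀ t, Elem b (E t)) :
    NR (kron E ⊗ₖ (1 : Matrix B B K)) (2 * θ * Fintype.card (∀ t, X t) * Fintype.card B) σ := by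
  choose P hP using hE
  have := NR.core hC P (kron E ⊗ₖ (1 : Matrix B B K)) le_rfl zero_le_one
    (fun i j u v h t => hP t _ _ fun h0 => h (by
      rw [Matrix.kroneckerMap_apply]
      exact mul_eq_zero_of_left (Finset.prod_eq_zero (Finset.mem_univ t) h0) _))
    (fun i j => NR.of_sp (Sp.diag fun u v h => by
      by_contra huv
      apply h
      simp [Matrix.one_apply_ne huv]))
  simpa using this

theorem NR.kron_prd (hC : Conc ι b θ σ) : ∀ (k : ℕ) (M : ∀ t, Matrix (X t) (X t) K),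
    (∀ t, Prd b k (M t)) →
    NR (kron M ⊗ₖ (1 : Matrix B B K))
      (k * (2 * θ * Fintype.card (∀ t, X t) * Fintype.card B)) (σ ^ k)
  | 0, M, hM => by
    have : M = fun t => 1 := funext fun t => hM t
    rw [this, kron_one, Matrix.one_kronecker_one]
    simpa using NR.of_sp (Sp.diag (K := K) (S := (1 : Matrix ((∀ t, X t) × B) ((∀ t, X t) × B) K))
      fun u v h => by
        by_contra huv
        exact h (Matrix.one_apply_ne huv))
  | k + 1, M, hM => by
    choose E M' hE hM' hEM using hM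
    have : M = fun t => E t * M' t := funext hEM
    rw [this, kron_mul, ← Matrix.mul_one (1 : Matrix B B K), Matrix.mul_kronecker_mul]
    have := (NR.kron_elem B hC E hE).mul (NR.kron_prd hC k M' hM')
    convert this using 1
    · push_cast; ring
    · ring

theorem NR.kron_bprd (hC : Conc ι b θ σ) {k d : ℕ} (M : ∀ t, Matrix (X t) (X t) K)
    (hM : ∀ t, BPrd b k d (M t)) (N : Finset K) (hN0 : (0 : K) ∉ N)
    (hN : Fintype.card ι * d < N.card) :
    NR (kron M ⊗ₖ (1 : Matrix B B K))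
      (N.card * (k * (2 * θ * Fintype.card (∀ t, X t) * Fintype.card B))) (N.card * σ ^ k) := by
  classical
  choose Q hQ hQ0 hQδ using hM
  have key : ∀ p : K[X], p.natDegree < N.card →
      p.eval 0 = ∑ δ ∈ N, (Lagrange.basis N id δ).eval 0 * p.eval δ := by
    intro p hp
    have hdeg : p.degree < N.card := lt_of_le_of_lt degree_le_natDegree (by exact_mod_cast hp)
    have := Lagrange.eq_interpolate (s := N) (v := id) (Set.injOn_id _) hdeg
    conv_lhs => rw [this]
    rw [Lagrange.interpolate_apply, eval_finsetSum]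
    refine Finset.sum_congr rfl fun δ _ => ?_
    simp [mul_comm]
  have e : kron M ⊗ₖ (1 : Matrix B B K) = ∑ δ ∈ N, (Lagrange.basis N id δ).eval 0 •
      (kron (fun t => (Q t).map (evalRingHom δ)) ⊗ₖ (1 : Matrix B B K)) := by
    ext ⟨i, u⟩ ⟨j, v⟩
    have h1 : (∏ t, Q t (i t) (j t)).natDegree < N.card := by
      refine lt_of_le_of_lt ((natDegree_prod_le _ _).trans ?_) hN
      calc ∑ t, (Q t (i t) (j t)).natDegree ≤ ∑ _t : ι, d := Finset.sum_le_sum fun t _ => hQ t _ _
        _ = _ := by simp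
    have h2 := key _ h1
    simp only [eval_prod] at h2
    simp only [Matrix.sum_apply, Matrix.smul_apply, Matrix.kroneckerMap_apply, kron,
      Matrix.of_apply, Matrix.map_apply, coe_evalRingHom, smul_eq_mul, ← mul_assoc]
    rw [← Finset.sum_mul, ← h2]
    congr 1
    refine Finset.prod_congr rfl fun t _ => ?_
    rw [← hQ0 t]; rfl
  rw [e]
  exact NR.sum N _ fun δ hδ =>
    (NR.kron_prd B hC k _ fun t => hQδ t δ fun h => hN0 (h ▸ hδ)).smul _

end many

end Pool.Agent.H571Z
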