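import Pool.Agent.H571Z.Small

set_option autoImplicit false
set_option linter.unusedSectionVars false

/-!
Products of large cyclic groups.
-/

namespace Pool.Agent.H571Z

open Finset Matrix Polynomial

theorem geo_le {a κ : ℝ} (h : Real.exp (-a) + Real.exp (-κ) ≤ 1) (n : ℕ) :
    ∑ j ∈ range n, Real.exp (-(a * j)) ≤ Real.exp κ := by
  have e : ∀ j : ℕ, Real.exp (-(a * j)) = Real.exp (-a) ^ j := fun j => by
    rw [← Real.exp_nat_mul]; congr 1; ring
  simp only [e]
  have h0 : 0 < Real.exp (-a) := Real.exp_pos _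
  have h1 := geom_sum_mul (Real.exp (-a)) n
  have h2 : 0 ≤ Real.exp (-a) ^ n := by positivity
  have h3 : 0 ≤ ∑ j ∈ range n, Real.exp (-a) ^ j := Finset.sum_nonneg fun j _ => by positivity
  have h4 : (∑ j ∈ range n, Real.exp (-a) ^ j) * Real.exp (-κ) ≤ 1 := by nlinarith
  have h5 : Real.exp (-κ) * Real.exp κ = 1 := by rw [← Real.exp_add]; simp
  have h6 : 0 < Real.exp κ := Real.exp_pos _
  nlinarith

theorem exists_dual {x : ℝ} (hx : 0 < x) : ∃ y : ℝ, 0 < y ∧ Real.exp (-x) + Real.exp (-y) ≤ 1 := by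
  have h0 : 0 < Real.exp (-x) := Real.exp_pos _
  have h1 : Real.exp (-x) < 1 := Real.exp_lt_one_iff.2 (by linarith)
  refine ⟨-Real.log (1 - Real.exp (-x)), ?_, ?_⟩
  · have := Real.log_neg (x := 1 - Real.exp (-x)) (by linarith) (by linarith)
    linarith
  · rw [neg_neg, Real.exp_log (by linarith)]
    linarith

theorem exists_few_primes {τ : ℝ} (hτ : 0 < τ) (u₀ : ℕ) :
    ∃ u : ℕ, u₀ ≤ u ∧ ((Nat.primesLE (2 * u)).card : ℝ) ≤ τ * (2 * u : ℕ) := by
  have h1 := Chebyshev.eventually_primeCounting_le (ε := 1) one_pos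
  have h2 : ∀ᶠ x : ℝ in Filter.atTop, (Real.log 4 + 1) / τ ≤ Real.log x :=
    Real.tendsto_log_atTop.eventually_ge_atTop _
  obtain ⟨x₀, hx₀⟩ := Filter.eventually_atTop.1 (h1.and h2)
  obtain ⟨u, hu⟩ := exists_nat_ge x₀
  refine ⟨max u u₀, le_max_right _ _, ?_⟩
  have h3 : x₀ ≤ ((2 * max u u₀ : ℕ) : ℝ) := by
    have : u ≤ 2 * max u u₀ := by have := le_max_left u u₀; omega
    exact hu.trans (by exact_mod_cast this)
  obtain ⟨h4, h5⟩ := hx₀ _ h3
  rw [Nat.floor_natCast] at h4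
  rw [Nat.primesLE_card_eq_primeCounting]
  refine h4.trans ?_
  have h6 : 0 < Real.log 4 + 1 := by positivity
  have h7 : 0 < Real.log ((2 * max u u₀ : ℕ) : ℝ) := lt_of_lt_of_le (by positivity) h5
  rw [div_le_iff₀ h7]
  rw [div_le_iff₀ hτ] at h5
  have h8 : (0 : ℝ) ≤ ((2 * max u u₀ : ℕ) : ℝ) := by positivity
  nlinarith

theorem two_pow_ge (u : ℕ) (hu : 11 ≤ u) : 4 * (2 * u) * (2 * u + 1) ≤ 2 ^ u := by
  induction u, hu using Nat.le_induction with
  | base => norm_num
  | succ u hu ih => rw [pow_succ]; nlinarith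

theorem exists_moduli (K : Type*) [Field K] (u : ℕ) (hu : 11 ≤ u) :
    ∃ (I : Finset ℕ) (a : ℕ → ℕ), I ⊆ Nat.primesLE (2 * u) ∧
      (∀ l ∈ I, 0 < a l ∧ a l ≤ 2 * u ∧ (a l : K) ≠ 0) ∧
      (∀ l ∈ I, ∀ l' ∈ I, l ≠ l' → (a l).Coprime (a l')) ∧
      4 * 2 ^ u ≤ ∏ l ∈ I, a l ∧ ∏ l ∈ I, a l ≤ (2 * u).factorial := by
  classical
  have hm : 2 * u ≠ 0 := by omega
  refine ⟨(Nat.primesLE (2 * u)).erase (ringChar K), fun l => l ^ l.log (2 * u),
    Finset.erase_subset _ _, fun l hl => ?_, fun l hl l' hl' hne => ?_, ?_, ?_⟩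
  · have hp := Nat.prime_of_mem_primesLE (Finset.mem_of_mem_erase hl)
    refine ⟨pow_pos hp.pos _, Nat.pow_log_le_self _ hm, ?_⟩
    rw [Nat.cast_pow]
    refine pow_ne_zero _ fun h => ?_
    have h1 := (ringChar.spec K l).1 h
    rcases (Nat.dvd_prime hp).1 h1 with h2 | h2
    · exact CharP.ringChar_ne_one h2
    · exact Finset.ne_of_mem_erase hl h2.symm
  · exact Nat.coprime_pow_primes _ _ (Nat.prime_of_mem_primesLE (Finset.mem_of_mem_erase hl))
      (Nat.prime_of_mem_primesLE (Finset.mem_of_mem_erase hl')) hne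
  · have h1 := Chebyshev.two_pow_le_mul_lcmUpto (2 * u)
    have h2 : Nat.lcmUpto (2 * u) ≤
        (2 * u) * ∏ l ∈ (Nat.primesLE (2 * u)).erase (ringChar K), l ^ l.log (2 * u) := by
      rw [Nat.lcmUpto_eq_prod_pow_log]
      by_cases h : ringChar K ∈ Nat.primesLE (2 * u)
      · rw [← Finset.mul_prod_erase _ _ h]
        exact Nat.mul_le_mul_right _ (Nat.pow_log_le_self _ hm)
      · rw [Finset.erase_eq_of_notMem h]
        exact Nat.le_mul_of_pos_left _ (by omega)
    have h3 := two_pow_ge u hu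
    generalize ∏ l ∈ (Nat.primesLE (2 * u)).erase (ringChar K), l ^ l.log (2 * u) = q at h2 ⊢
    have h4 : 2 ^ (2 * u) = 2 ^ u * 2 ^ u := by rw [two_mul, pow_add]
    have h5 : (2 * u) * (2 * u + 1) * (4 * 2 ^ u) ≤ (2 * u) * (2 * u + 1) * q := by
      calc (2 * u) * (2 * u + 1) * (4 * 2 ^ u) = 4 * (2 * u) * (2 * u + 1) * 2 ^ u := by ring
        _ ≤ 2 ^ u * 2 ^ u := Nat.mul_le_mul_right _ h3
        _ ≤ (2 * u + 1) * Nat.lcmUpto (2 * u) := h4 ▸ h1
        _ ≤ (2 * u + 1) * ((2 * u) * q) := Nat.mul_le_mul_left _ h2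
        _ = _ := by ring
    exact Nat.le_of_mul_le_mul_left h5 (by positivity)
  · refine le_trans ?_ (Nat.le_of_dvd (Nat.factorial_pos _) (Nat.lcmUpto_dvd_factorial (2 * u)))
    rw [Nat.lcmUpto_eq_prod_pow_log]
    exact Finset.prod_le_prod_of_subset_of_one_le' (Finset.erase_subset _ _) fun l hl _ =>
      Nat.one_le_pow _ _ (Nat.prime_of_mem_primesLE hl).pos

theorem exists_digits {n s r : ℕ} [NeZero n] (h : n ≤ s ^ r) :
    ∃ dig : ZMod n → Fin r → ℕ, (∀ y u, dig y u < s) ∧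
      ∀ y : ZMod n, y.val = ∑ u, dig y u * s ^ (u : ℕ) := by
  refine ⟨fun y u => finFunctionFinEquiv.symm ⟨y.val, (ZMod.val_lt y).trans_le h⟩ u,
    fun y u => Fin.is_lt _, fun y => ?_⟩
  rw [← finFunctionFinEquiv_apply, Equiv.apply_symm_apply]

/-- The field `K` has the roots of unity of order at most `m` and `T` nonzero elements. -/
def Rich (K : Type*) [Field K] (m T : ℕ) : Prop :=
  (∀ n, 0 < n → n ≤ m → ∃ α : ℕ → K, ∏ k ∈ range n, (X - C (α k)) = X ^ n - 1) ∧
  (∀ n, 0 < n → n ≤ m → (n : K) ≠ 0 → ∃ ω : K, IsPrimitiveRoot ω n) ∧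
  ∃ g : ℕ → K, (∀ u < T, g u ≠ 0) ∧ ∀ u < T, ∀ v < T, g u = g v → u = v

theorem large_conc {ε₁ : ℝ} (hε : 0 < ε₁) : ∃ u : ℕ, 11 ≤ u ∧
    ∀ (ι : Type) [Fintype ι] [DecidableEq ι] (r : ℕ),
      Fintype.card ι ≤ r * (Nat.primesLE (2 * u)).card →
      Conc ι (Nat.sqrt (2 * u) + 1) (Real.exp (-(3 * r))) (Real.exp (2 * ε₁ * (2 * u : ℕ) * r)) := by
  obtain ⟨κ, hκ, hκ'⟩ := exists_dual hε
  set τ : ℝ := min (1 / 192) (ε₁ / κ) with hτ
  have hτ0 : 0 < τ := lt_min (by norm_num) (by positivity)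
  have hτ1 : τ ≤ 1 / 192 := min_le_left _ _
  have hτ2 : τ * κ ≤ ε₁ := by
    have := min_le_right (1 / 192) (ε₁ / κ)
    rwa [← hτ, le_div_iff₀ hκ] at this
  obtain ⟨u₀, hu₀⟩ := exists_nat_ge (1 / (64 * τ ^ 2))
  obtain ⟨u, hu, hπ⟩ := exists_few_primes hτ0 (max u₀ 11)
  have hu11 : 11 ≤ u := (le_max_right _ _).trans hu
  refine ⟨u, hu11, fun ι _ _ r hι => ?_⟩
  set m : ℕ := 2 * u with hm
  have hm0 : (0 : ℝ) < m := by exact_mod_cast (show 0 < m by omega)
  have hm1 : 1 ≤ 64 * τ ^ 2 * m := by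
    have h1 : (u₀ : ℝ) ≤ m := by exact_mod_cast (show u₀ ≤ m by have := le_max_left u₀ 11; omega)
    have h2 := hu₀.trans h1
    rw [div_le_iff₀ (by positivity)] at h2
    linarith
  have hc : (((Nat.sqrt m + 1 : ℕ) : ℝ)) ^ 2 ≤ 4 * m := by
    have h1 : 1 ≤ Nat.sqrt m := Nat.le_sqrt.2 (by omega)
    have h2 := Nat.sqrt_le' m
    have : (Nat.sqrt m + 1) ^ 2 ≤ 4 * m := by nlinarith
    exact_mod_cast this
  have hR : (Fintype.card ι : ℝ) ≤ r * (τ * m) := by
    have : (Fintype.card ι : ℝ) ≤ r * (Nat.primesLE m).card := by exact_mod_cast hι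
    exact this.trans (mul_le_mul_of_nonneg_left hπ (by positivity))
  have hlb : 1 / (16 * τ * m) * ((Nat.sqrt m + 1 : ℕ) : ℝ) ≤ 1 := by
    rw [one_div, inv_mul_le_iff₀ (by positivity), mul_one]
    refine le_of_sq_le_sq (hc.trans ?_) (by positivity)
    nlinarith
  refine (conc ι (Nat.sqrt m + 1) (lam := 1 / (16 * τ * m)) (a := ε₁) (κ := κ) (D := m * r)
    (by positivity) hlb hε.le (by positivity) hκ.le (geo_le hκ')).mono
    (Real.exp_le_exp.2 ?_) (Real.exp_le_exp.2 ?_)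
  · have h1 : (Fintype.card ι : ℝ) * ((1 / (16 * τ * m)) ^ 2 * ((Nat.sqrt m + 1 : ℕ) : ℝ) ^ 2) ≤
        (r * (τ * m)) * ((1 / (16 * τ * m)) ^ 2 * (4 * m)) :=
      mul_le_mul hR (mul_le_mul_of_nonneg_left hc (by positivity)) (by positivity) (by positivity)
    have h2 : (r * (τ * m)) * ((1 / (16 * τ * m)) ^ 2 * (4 * m)) -
        1 / (16 * τ * m) * (m * r / 2) = -(r / (64 * τ)) := by
      field_simp; ring
    have h3 : (3 : ℝ) * r ≤ r / (64 * τ) := by
      rw [le_div_iff₀ (by positivity)]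
      have : (0 : ℝ) ≤ r := by positivity
      nlinarith
    linarith
  · have h1 : (Fintype.card ι : ℝ) * κ ≤ r * (τ * m) * κ := mul_le_mul_of_nonneg_right hR hκ.le
    have h2 : r * (τ * m) * κ ≤ r * m * ε₁ := by
      calc r * (τ * m) * κ = r * m * (τ * κ) := by ring
        _ ≤ _ := mul_le_mul_of_nonneg_left hτ2 (by positivity)
    linarith

theorem large {ε : ℝ} (hε : 0 < ε) : ∃ (m K₀ : ℕ) (η : ℝ), 1 ≤ m ∧ 1 ≤ K₀ ∧ 0 < η ∧
    ∀ (K : Type*) [Field K] (ι : Type) [Fintype ι] [DecidableEq ι] (n : ι → ℕ)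
      [∀ t, NeZero (n t)] (T : ℕ), (∀ t, K₀ < n t) → Rich K m T →
      2 * m ^ 3 * Nat.log 2 (∏ t, n t) + m + 1 < T → ∀ f : (∀ t, ZMod (n t)) → K,
      NR (circ f) (78 * T * (∏ t, n t : ℕ) * Real.exp (-(η * Real.log (∏ t, n t : ℕ))))
        (T ^ 2 * Real.exp (ε * Real.log (∏ t, n t : ℕ))) := by
  obtain ⟨u, hu, hconc⟩ := large_conc (ε₁ := ε / 312) (by positivity)
  have hfac : 0 < (2 * u).factorial := Nat.factorial_pos _
  refine ⟨2 * u, (2 * u).factorial ^ (2 * u).factorial, 1 / (2 * u).factorial, by omega,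
    Nat.one_le_pow _ _ hfac, by positivity, ?_⟩
  intro K _ ι _ _ n _ T hn hK hT f
  classical
  obtain ⟨-, hroot, g, hg0, hg⟩ := hK
  obtain ⟨I, a, hI, ha, hcop, hq1, hq2⟩ := exists_moduli K u hu
  set m := 2 * u with hm
  set q := ∏ l ∈ I, a l with hq
  set s := (q + 1) / 2 with hs
  have h2u : 2 ≤ 2 ^ u := by
    calc 2 = 2 ^ 1 := rfl
      _ ≤ 2 ^ u := Nat.pow_le_pow_right (by norm_num) (by omega)
  have hs1 : 2 * 2 ^ u ≤ s := by omega
  have hs2 : 1 < s := by omega
  have hs3 : s ≤ m.factorial := by omega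
  let r : ι → ℕ := fun t => Nat.clog s (n t)
  have hr1 : ∀ t, n t ≤ s ^ r t := fun t => Nat.le_pow_clog hs2 _
  have hr2 : ∀ t, s ^ r t ≤ 2 ^ r t * n t := by
    intro t
    have h1 : s ^ s < n t :=
      lt_of_le_of_lt ((Nat.pow_le_pow_left hs3 _).trans (Nat.pow_le_pow_right hfac hs3)) (hn t)
    have h2 : s < r t := (Nat.pow_lt_pow_iff_right hs2).1 (h1.trans_le (hr1 t))
    have h3 := Nat.pow_pred_clog_lt_self hs2 (x := n t)
      (lt_of_le_of_lt (Nat.one_le_pow _ _ (by omega)) h1)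
    have h4 : s ≤ 2 ^ r t := (h2.trans Nat.lt_two_pow_self).le
    have h5 : s ^ r t = s * s ^ (Nat.clog s (n t)).pred := by
      rw [← pow_succ']
      congr 1
      exact (Nat.succ_pred_eq_of_pos (show 0 < r t by omega)).symm
    rw [h5]
    exact Nat.mul_le_mul h4 h3.le
  set R := ∑ t, r t with hR
  set N := ∏ t, n t with hN
  have hN0 : 0 < N := Finset.prod_pos fun t _ => NeZero.pos _
  have hN1 : N ≤ s ^ R := by
    rw [hR, ← Finset.prod_pow_eq_pow_sum]
    exact Finset.prod_le_prod' fun t _ => hr1 t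
  have hN2 : s ^ R ≤ 2 ^ R * N := by
    rw [hR, ← Finset.prod_pow_eq_pow_sum, ← Finset.prod_pow_eq_pow_sum, hN,
      ← Finset.prod_mul_distrib]
    exact Finset.prod_le_prod' fun t _ => hr2 t
  have hN3 : (2 ^ u) ^ R ≤ N := by
    have : 2 ^ R * (2 ^ u) ^ R ≤ 2 ^ R * N := by
      rw [← mul_pow]
      exact (Nat.pow_le_pow_left hs1 _).trans hN2
    exact Nat.le_of_mul_le_mul_left this (by positivity)
  have hN4 : q ^ R ≤ 4 ^ R * N := by
    calc q ^ R ≤ (2 * s) ^ R := Nat.pow_le_pow_left (by omega) _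
      _ = 2 ^ R * s ^ R := mul_pow _ _ _
      _ ≤ 2 ^ R * (2 ^ R * N) := Nat.mul_le_mul_left _ hN2
      _ = 4 ^ R * N := by rw [← mul_assoc, ← mul_pow]; rfl
  have hRlog : R ≤ Nat.log 2 N :=
    Nat.le_log_of_pow_le (by norm_num) ((Nat.pow_le_pow_left h2u _).trans hN3)
  -- the big group
  let ι' := (Σ t, Fin (r t)) × I
  have hι' : Fintype.card ι' = R * I.card := by
    simp [ι', hR]
  have : ∀ p : ι', NeZero (a p.2) := fun p => ⟨(ha _ p.2.2).1.ne'⟩
  have hIcard : I.card ≤ (Nat.primesLE m).card := Finset.card_le_card hI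
  have hIm : I.card ≤ m := by
    refine hIcard.trans ?_
    rw [Nat.primesLE_eq_filter_Ioc_zero]
    exact (Finset.card_filter_le _ _).trans (by simp)
  have hC := hconc ι' R (by rw [hι']; exact Nat.mul_le_mul_left _ hIcard)
  have hcT : Nat.sqrt m + 1 ≤ T := by have := Nat.sqrt_le_self m; omega
  have hL : ∀ p : ι', Lev K (ZMod (a p.2)) (Nat.sqrt m + 1) 19 (2 * (m * m)) := by
    intro p
    obtain ⟨h1, h2, h3⟩ := ha _ p.2.2
    obtain ⟨ω, hω⟩ := hroot _ h1 h2 h3
    obtain ⟨W, W', P, hW, hW', hJ⟩ := lev_root hω (c := Nat.sqrt m + 1) (by omega)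
      (h2.trans (Nat.lt_succ_sqrt m).le) g (fun v hv => hg0 v (by omega))
      (fun v hv w hw => hg v (by omega) w (by omega))
    have h4 : 2 * (a p.2 * a p.2) ≤ 2 * (m * m) := Nat.mul_le_mul_left _ (Nat.mul_le_mul h2 h2)
    exact ⟨W, W', P, hW.mono h4, hW'.mono h4, hJ⟩
  have hNcard : ((range T).image g).card = T := by
    rw [Finset.card_image_of_injOn, Finset.card_range]
    intro v hv w hw
    exact hg v (by simpa using hv) w (by simpa using hw)
  have hstep := step hC hL ((range T).image g)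
    (fun h => by
      obtain ⟨v, hv, hv'⟩ := Finset.mem_image.1 h
      exact hg0 v (Finset.mem_range.1 hv) hv')
    (by
      rw [hNcard, hι']
      calc R * I.card * (2 * (m * m)) ≤ Nat.log 2 N * m * (2 * (m * m)) :=
            Nat.mul_le_mul_right _ (Nat.mul_le_mul hRlog hIm)
        _ = 2 * m ^ 3 * Nat.log 2 N := by ring
        _ < T := by omega)
    (B := PUnit.{1}) (ρ := 0) (s := 1) (fun F => by simpa using NR.of_sp (Sp.full (circ F)))
  have hcard : Fintype.card (∀ p : ι', ZMod (a p.2)) = q ^ R := by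
    rw [Fintype.card_pi]
    simp only [ZMod.card, ι']
    rw [Fintype.prod_prod_type]
    simp only [Finset.prod_coe_sort I a, Finset.prod_const, Finset.card_univ]
    simp [hq, hR]
  choose dig hdig hdig' using fun t => exists_digits (hr1 t)
  have hemb := embed (K := K)
    (fun x : (∀ t, ZMod (n t)) => ((fun p : ι' => (dig p.1.1 (x p.1.1) p.1.2 : ZMod (a p.2))),
      (PUnit.unit : PUnit.{1}))) (fun x y x' y' h => by
      funext t
      have h1 : ∀ v : Fin (r t), (dig t (x t) v : ℤ) - dig t (y t) v =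
          dig t (x' t) v - dig t (y' t) v := by
        intro v
        have h2 : ∀ l ∈ I, (a l : ℤ) ∣ ((dig t (x t) v : ℤ) - dig t (y t) v) -
            (dig t (x' t) v - dig t (y' t) v) := by
          intro l hl
          rw [← ZMod.intCast_zmod_eq_zero_iff_dvd]
          have := congrFun (congrArg Prod.fst h) (⟨t, v⟩, ⟨l, hl⟩)
          simp only [Prod.fst_sub, Pi.sub_apply] at this
          push_cast
          rw [this, sub_self]
        have h3 : (q : ℤ) ∣ ((dig t (x t) v : ℤ) - dig t (y t) v) -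
            (dig t (x' t) v - dig t (y' t) v) := by
          rw [hq, Nat.cast_prod]
          exact Finset.prod_dvd_of_coprime
            (fun l hl l' hl' hne => Nat.isCoprime_iff_coprime.2 (hcop l hl l' hl' hne)) h2
        have h4 := Int.eq_zero_of_abs_lt_dvd h3 (by
          have := hdig t (x t) v
          have := hdig t (y t) v
          have := hdig t (x' t) v
          have := hdig t (y' t) v
          rw [abs_lt]
          constructor <;> omega)
        omega
      have h5 : ((x t).val : ℤ) - (y t).val = (x' t).val - (y' t).val := by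
        rw [hdig' t (x t), hdig' t (y t), hdig' t (x' t), hdig' t (y' t)]
        push_cast
        rw [← Finset.sum_sub_distrib, ← Finset.sum_sub_distrib]
        exact Finset.sum_congr rfl fun v _ => by rw [← sub_mul, ← sub_mul, h1 v]
      have h6 := congrArg (Int.cast : ℤ → ZMod (n t)) h5
      simpa using h6) hstep f
  rw [hNcard, hcard] at hemb
  have hT1 : (1 : ℝ) ≤ T := by exact_mod_cast (show 1 ≤ T by omega)
  have hN0' : (0 : ℝ) < N := by exact_mod_cast hN0
  refine hemb.mono ?_ ?_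
  · have h1 : ((q ^ R : ℕ) : ℝ) ≤ Real.exp (2 * R) * N := by
      have h2 : ((q ^ R : ℕ) : ℝ) ≤ 4 ^ R * N := by exact_mod_cast hN4
      have h3 : (4 : ℝ) ^ R ≤ Real.exp (2 * R) := by
        rw [mul_comm, Real.exp_nat_mul]
        refine pow_le_pow_left₀ (by norm_num) ?_ _
        have := Real.add_one_le_exp (1 : ℝ)
        have e : Real.exp 2 = Real.exp 1 * Real.exp 1 := by rw [← Real.exp_add]; norm_num
        nlinarith
      exact h2.trans (mul_le_mul_of_nonneg_right h3 hN0'.le)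
    have h4 : Real.log N ≤ m.factorial * R := by
      have h5 : (N : ℝ) ≤ (s : ℝ) ^ R := by exact_mod_cast hN1
      have h6 : Real.log N ≤ R * Real.log s := by
        rw [← Real.log_pow]
        exact Real.log_le_log hN0' h5
      have h7 : Real.log s ≤ m.factorial :=
        (Real.log_le_self (by positivity)).trans (by exact_mod_cast hs3)
      have h8 : (0 : ℝ) ≤ R := by positivity
      nlinarith
    have h9 : Real.exp (-(3 * R)) * ((q ^ R : ℕ) : ℝ) ≤
        N * Real.exp (-(1 / m.factorial * Real.log N)) := by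
      refine (mul_le_mul_of_nonneg_left h1 (Real.exp_pos _).le).trans ?_
      rw [← mul_assoc, ← Real.exp_add, mul_comm]
      refine mul_le_mul_of_nonneg_left (Real.exp_le_exp.2 ?_) hN0'.le
      have : 1 / (m.factorial : ℝ) * Real.log N ≤ R := by
        rw [one_div, inv_mul_le_iff₀ (by exact_mod_cast hfac)]
        exact h4
      linarith
    have h10 : 0 ≤ Real.exp (-(3 * R)) * ((q ^ R : ℕ) : ℝ) := by positivity
    simp only [Fintype.card_unique, Nat.cast_one, mul_one, mul_zero, add_zero, Nat.cast_ofNat]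
    nlinarith
  · have h1 : (m : ℝ) * R ≤ 4 * Real.log N := by
      have h2 : ((2 : ℝ) ^ u) ^ R ≤ N := by exact_mod_cast hN3
      have h3 := Real.log_le_log (by positivity) h2
      rw [Real.log_pow, Real.log_pow] at h3
      have h4 : (1 : ℝ) / 2 ≤ Real.log 2 := by have := Real.log_two_gt_d9; linarith
      have h5 : (0 : ℝ) ≤ (R : ℝ) * u := by positivity
      have h6 : (m : ℝ) = 2 * u := by rw [hm]; push_cast; ring
      rw [h6]
      nlinarith
    rw [mul_one, mul_pow, mul_assoc, ← pow_mul, ← pow_succ, ← Real.exp_nat_mul]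
    refine mul_le_mul_of_nonneg_left (Real.exp_le_exp.2 ?_) (by positivity)
    push_cast
    nlinarith

end Pool.Agent.H571Z
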