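import Pool.Agent.H571Z.Comb

set_option autoImplicit false
set_option linter.unusedSectionVars false

/-!
Circulant matrices of finite abelian groups are not rigid, over any field.
-/

namespace Pool.Agent.H571Z

open Finset Matrix Polynomial

universe u v

theorem exists_rich (F : Type u) [Field F] (m T : ℕ) (hT : 0 < T) :
    ∃ (K : Type u) (_ : Field K) (_ : Algebra F K), FiniteDimensional F K ∧
      Module.finrank F K ≤ m.factorial * (T * (T + 1)) ∧ Rich K m T := by
  classical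
  set M := m.factorial * (T * (T + 1)) with hM
  have hM0 : 0 < M := by have := m.factorial_pos; positivity
  have : NeZero M := ⟨hM0.ne'⟩
  let Ω := AlgebraicClosure F
  obtain ⟨ζ, hζ⟩ := IsCyclic.exists_generator (α := rootsOfUnity M Ω)
  set z : Ω := ((ζ : Ωˣ) : Ω) with hz
  have hzM : z ^ M = 1 := (mem_rootsOfUnity' M _).1 ζ.2
  let K := IntermediateField.adjoin F {z}
  have hint : IsIntegral F z := Algebra.IsIntegral.isIntegral z
  have hmem : ∀ x : Ω, x ^ M = 1 → x ∈ K := by
    intro x hx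
    obtain ⟨k, hk⟩ := hζ (rootsOfUnity.mkOfPowEq x hx)
    have : x = z ^ k := by
      have := congrArg (fun y : rootsOfUnity M Ω => ((y : Ωˣ) : Ω)) hk
      simpa [hz] using this.symm
    rw [this]
    exact zpow_mem (IntermediateField.mem_adjoin_simple_self F z) k
  have hdvd : ∀ n, 0 < n → n ≤ m → n ∣ M := fun n h1 h2 =>
    (Nat.dvd_factorial h1 h2).trans (Dvd.intro _ rfl)
  have hmem' : ∀ (n : ℕ) (x : Ω), n ∣ M → x ^ n = 1 → x ∈ K := by
    rintro n x ⟨k, hk⟩ hx
    exact hmem x (by rw [hk, pow_mul, hx, one_pow])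
  have hprim : ∀ n : ℕ, 0 < n → n ∣ M → (n : K) ≠ 0 → ∃ ω : K, IsPrimitiveRoot ω n := by
    intro n hn hnM hnK
    have h1 : (n : Ω) ≠ 0 := fun h => hnK (Subtype.ext (by simpa using h))
    have : NeZero (n : Ω) := ⟨h1⟩
    have : NeZero n := ⟨hn.ne'⟩
    obtain ⟨ω, hω⟩ := HasEnoughRootsOfUnity.exists_primitiveRoot Ω n
    exact ⟨⟨ω, hmem' n ω hnM hω.pow_eq_one⟩,
      IsPrimitiveRoot.of_map_of_injective (f := K.val) hω K.val.injective⟩
  refine ⟨K, inferInstance, inferInstance, IntermediateField.adjoin.finiteDimensional hint, ?_,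
    fun n h1 h2 => ?_, fun n h1 h2 h3 => hprim n h1 (hdvd n h1 h2) h3, ?_⟩
  · rw [IntermediateField.adjoin.finrank hint]
    have h1 : minpoly F z ∣ X ^ M - C 1 := minpoly.dvd F z (by simp [hzM])
    exact (natDegree_le_of_dvd h1 (X_pow_sub_C_ne_zero hM0 1)).trans natDegree_X_pow_sub_C.le
  · have hs : ((X ^ n - C 1 : F[X]).map (algebraMap F K)).Splits :=
      IntermediateField.splits_of_splits (IsAlgClosed.splits _) fun x hx =>
        hmem' n x (hdvd n h1 h2) (by
          have := (mem_rootSet.1 hx).2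
          simpa [sub_eq_zero] using this)
    have e : (X ^ n - C 1 : F[X]).map (algebraMap F K) = X ^ n - C 1 := by simp
    rw [e] at hs
    have hc := hs.natDegree_eq_card_roots
    rw [natDegree_X_pow_sub_C] at hc
    have hp := hs.eq_prod_roots_of_monic (monic_X_pow_sub_C 1 h1.ne')
    obtain ⟨l, hl⟩ := Quotient.exists_rep (X ^ n - C 1 : K[X]).roots
    have hl' : (X ^ n - C 1 : K[X]).roots = (l : Multiset K) := hl.symm
    rw [hl'] at hc hp
    rw [Multiset.coe_card] at hc
    rw [Multiset.map_coe, Multiset.prod_coe] at hp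
    refine ⟨fun k => l.getD k 0, ?_⟩
    rw [← C_1, hp, hc, Finset.prod_range, ← Fin.prod_univ_fun_getElem]
    simp
  · obtain ⟨T', h1, h2, h3⟩ : ∃ T' : ℕ, T ≤ T' ∧ T' ∣ M ∧ (T' : K) ≠ 0 := by
      by_cases h : (T : K) = 0
      · exact ⟨T + 1, by omega, Dvd.intro_left (m.factorial * T) (by rw [hM]; ring),
          by push_cast; rw [h]; simp⟩
      · exact ⟨T, le_rfl, Dvd.intro_left (m.factorial * (T + 1)) (by rw [hM]; ring), h⟩
    obtain ⟨ω, hω⟩ := hprim T' (by omega) h2 h3
    exact ⟨fun k => ω ^ k, fun k _ => pow_ne_zero _ (hω.ne_zero (by omega)),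
      fun a ha b hb h => hω.pow_inj (by omega) (by omega) h⟩

theorem eventually_poly_le (C : ℝ) {δ : ℝ} (hδ : 0 < δ) :
    ∃ N₀ : ℕ, ∀ N : ℕ, N₀ ≤ N → 1 ≤ Real.log N ∧
      C * Real.log N ^ 3 ≤ Real.exp (δ * Real.log N) := by
  have h1 := (isLittleO_pow_exp_pos_mul_atTop 3 hδ).const_mul_left C
  have h2 := h1.bound one_pos
  have h3 : Filter.Tendsto (fun N : ℕ => Real.log N) Filter.atTop Filter.atTop :=
    Real.tendsto_log_atTop.comp tendsto_natCast_atTop_atTop
  obtain ⟨N₀, hN₀⟩ := Filter.eventually_atTop.1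
    ((h3.eventually h2).and (h3.eventually_ge_atTop 1))
  refine ⟨N₀, fun N hN => ⟨(hN₀ N hN).2, ?_⟩⟩
  have := (hN₀ N hN).1
  rw [one_mul, Real.norm_of_nonneg (Real.exp_pos _).le, Real.norm_eq_abs] at this
  exact (le_abs_self _).trans this

theorem main_nr {ε : ℝ} (hε : 0 < ε) : ∃ η : ℝ, 0 < η ∧ ∃ N₀ : ℕ,
    ∀ (F : Type u) [Field F] (G : Type v) [AddCommGroup G] [Fintype G] (f : G → F),
      N₀ ≤ Fintype.card G →
      NR (circ f) ((Fintype.card G : ℝ) ^ (1 - η)) ((Fintype.card G : ℝ) ^ ε) := by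
  set ε' := min (ε / 2) 1 with hε'
  have hε0 : 0 < ε' := lt_min (by positivity) one_pos
  obtain ⟨m, η, hη, hcomb⟩ := comb.{u, v} hε0 (min_le_right _ _)
  set A : ℝ := 4 * m ^ 3 + m + 2 with hA
  have hA1 : 1 ≤ A := by
    have : (0 : ℝ) ≤ 4 * m ^ 3 + m := by positivity
    linarith
  obtain ⟨N₁, hN₁⟩ := eventually_poly_le (176 * m.factorial * A ^ 3) (δ := η / 2) (by positivity)
  obtain ⟨N₂, hN₂⟩ := eventually_poly_le (A ^ 3) (δ := ε / 2) (by positivity)
  refine ⟨η / 2, by positivity, max N₁ N₂, fun F _ G _ _ f hN => ?_⟩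
  obtain ⟨hL, h1⟩ := hN₁ _ ((le_max_left _ _).trans hN)
  obtain ⟨-, h2⟩ := hN₂ _ ((le_max_right _ _).trans hN)
  set N := Fintype.card G with hNdef
  have hN0 : 0 < N := Fintype.card_pos
  have hN0' : (0 : ℝ) < N := by exact_mod_cast hN0
  set T := 2 * m ^ 3 * Nat.log 2 N + m + 2 with hT
  obtain ⟨K, _, _, hfin, hdeg, hrich⟩ := exists_rich F m T (by omega)
  have h3 := hcomb K G T hrich (by rw [← hNdef]; omega) fun x => algebraMap F K (f x)
  have h4 := NR.descend (circ f) (K := K) h3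
  have hlog : (Nat.log 2 N : ℝ) ≤ 2 * Real.log N := by
    have h5 : ((2 : ℝ)) ^ Nat.log 2 N ≤ N := by exact_mod_cast Nat.pow_log_le_self 2 hN0.ne'
    have h6 := Real.log_le_log (by positivity) h5
    rw [Real.log_pow] at h6
    have h7 : (1 : ℝ) / 2 ≤ Real.log 2 := by have := Real.log_two_gt_d9; linarith
    have h8 : (0 : ℝ) ≤ Nat.log 2 N := by positivity
    nlinarith
  have hTA : (T : ℝ) ≤ A * Real.log N := by
    rw [hT, hA]
    push_cast
    have h5 : (0 : ℝ) ≤ (m : ℝ) ^ 3 := by positivity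
    have h6 : (0 : ℝ) ≤ m := by positivity
    nlinarith
  have hT1 : (1 : ℝ) ≤ T := by exact_mod_cast (show 1 ≤ T by omega)
  have hT3 : (T : ℝ) ^ 3 ≤ A ^ 3 * Real.log N ^ 3 := by
    rw [← mul_pow]; exact pow_le_pow_left₀ (by positivity) hTA 3
  refine h4.mono ?_ ?_
  · have h5 : (Module.finrank F K : ℝ) ≤ m.factorial * (T * (T + 1)) := by exact_mod_cast hdeg
    have h6 : (Module.finrank F K : ℝ) ≤ m.factorial * (2 * T ^ 2) :=
      h5.trans (mul_le_mul_of_nonneg_left (by nlinarith) (by positivity))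
    calc (Module.finrank F K : ℝ) * (88 * T * N * Real.exp (-(η * Real.log N)))
        ≤ m.factorial * (2 * T ^ 2) * (88 * T * N * Real.exp (-(η * Real.log N))) :=
          mul_le_mul_of_nonneg_right h6 (by positivity)
      _ = 176 * m.factorial * T ^ 3 * (N * Real.exp (-(η * Real.log N))) := by ring
      _ ≤ 176 * m.factorial * (A ^ 3 * Real.log N ^ 3) * (N * Real.exp (-(η * Real.log N))) := by
          gcongr
      _ ≤ Real.exp (η / 2 * Real.log N) * (N * Real.exp (-(η * Real.log N))) := by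
          refine mul_le_mul_of_nonneg_right ?_ (by positivity)
          rw [← mul_assoc]; exact h1
      _ = (N : ℝ) ^ (1 - η / 2) := by
          rw [Real.rpow_def_of_pos hN0']
          nth_rewrite 2 [← Real.exp_log hN0']
          rw [← Real.exp_add, ← Real.exp_add]
          congr 1; ring
  · calc (T : ℝ) ^ 2 * Real.exp (ε' * Real.log N)
        ≤ Real.exp (ε / 2 * Real.log N) * Real.exp (ε / 2 * Real.log N) := by
          refine mul_le_mul (le_trans ?_ (hT3.trans h2)) (Real.exp_le_exp.2 ?_) (by positivity)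
            (by positivity)
          · exact pow_le_pow_right₀ hT1 (by norm_num)
          · exact mul_le_mul_of_nonneg_right (min_le_left _ _) (by linarith)
      _ = (N : ℝ) ^ ε := by
          rw [Real.rpow_def_of_pos hN0', ← Real.exp_add]
          congr 1; ring

end Pool.Agent.H571Z
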