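import Pool.Agent.H571Z.Kron

set_option autoImplicit false
set_option linter.unusedSectionVars false

/-!
Block diagonal matrices are products of two block triangular matrices (Gaussian elimination).
-/

namespace Pool.Agent.H571Z

open Finset Matrix

variable {K : Type*} [Field K] {X : Type} [Fintype X] [DecidableEq X]

/-- block diagonal with respect to the labelling `β` -/
def BD (β : X → ℕ) (M : Matrix X X K) : Prop := ∀ i j, M i j ≠ 0 → β i = β j

theorem plu_aux (β : X → ℕ) (s : Finset X) : ∀ M : Matrix X X K,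
    (∀ i j, M i j ≠ 0 → i ∈ s ∧ j ∈ s ∧ β i = β j) →
    ∃ (L U : Matrix X X K) (σ : Equiv.Perm X) (h : X → ℕ), M = L * U ∧
      (∀ x, x ∉ s → σ x = x) ∧ (∀ x, β (σ x) = β x) ∧
      (∀ x ∈ s, h x < (s.filter fun y => β y = β x).card) ∧
      (∀ x ∈ s, ∀ y ∈ s, β x = β y → h x = h y → x = y) ∧
      (∀ i j, L i j ≠ 0 → i ∈ s ∧ j ∈ s ∧ β i = β j ∧ h (σ i) ≤ h j) ∧
      (∀ i j, U i j ≠ 0 → i ∈ s ∧ j ∈ s ∧ β i = β j ∧ h j ≤ h i) := by
  induction s using Finset.induction_on with
  | empty =>
    intro M hM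
    refine ⟨0, 0, 1, fun _ => 0, ?_, by simp, by simp, by simp, by simp, by simp, by simp⟩
    ext i j
    by_contra h
    simp only [Matrix.mul_zero, Matrix.zero_apply] at h
    simpa using (hM i j h).1
  | insert j₀ s hj₀ ih =>
    intro M hM
    -- the pivot row and the elimination column
    obtain ⟨i₀, c, hi₀, hβ₀, hc₀, hc, hcol⟩ : ∃ (i₀ : X) (c : X → K), i₀ ∈ insert j₀ s ∧
        β i₀ = β j₀ ∧ c i₀ = 1 ∧ (∀ i, c i ≠ 0 → i ∈ insert j₀ s ∧ β i = β j₀) ∧
        ∀ i, M i j₀ = c i * M i₀ j₀ := by
      by_cases h : ∃ i, M i j₀ ≠ 0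
      · obtain ⟨i₀, hi₀⟩ := h
        refine ⟨i₀, fun i => M i j₀ / M i₀ j₀, (hM _ _ hi₀).1, (hM _ _ hi₀).2.2, div_self hi₀,
          fun i hi => ?_, fun i => by field_simp⟩
        have : M i j₀ ≠ 0 := fun h0 => hi (by simp [h0])
        exact ⟨(hM _ _ this).1, (hM _ _ this).2.2⟩
      · push Not at h
        refine ⟨j₀, fun i => if i = j₀ then 1 else 0, Finset.mem_insert_self _ _, rfl, by simp,
          fun i hi => ?_, fun i => by simp [h]⟩
        have : i = j₀ := by
          by_contra hne
          exact hi (if_neg hne)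
        subst this
        exact ⟨Finset.mem_insert_self _ _, rfl⟩
    let τ : Equiv.Perm X := Equiv.swap i₀ j₀
    have hτs : ∀ x, τ x ∈ insert j₀ s ↔ x ∈ insert j₀ s := by
      intro x
      by_cases h1 : x = i₀
      · subst h1; simp [τ, hi₀]
      · by_cases h2 : x = j₀
        · subst h2; simp only [τ, Equiv.swap_apply_right, hi₀, Finset.mem_insert_self]
        · rw [show τ x = x from Equiv.swap_apply_of_ne_of_ne h1 h2]
    have hτβ : ∀ x, β (τ x) = β x := by
      intro x
      by_cases h1 : x = i₀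
      · subst h1; simp [τ, hβ₀]
      · by_cases h2 : x = j₀
        · subst h2; simp [τ, hβ₀]
        · rw [show τ x = x from Equiv.swap_apply_of_ne_of_ne h1 h2]
    have hττ : ∀ x, τ (τ x) = x := fun x => Equiv.swap_apply_self _ _ _
    have hτj : τ j₀ = i₀ := Equiv.swap_apply_right _ _
    let M' : Matrix X X K := Matrix.of fun i j => M (τ i) j - c (τ i) * M i₀ j
    have hM' : ∀ i j, M' i j ≠ 0 → i ∈ s ∧ j ∈ s ∧ β i = β j := by
      intro i j hij
      have hi : i ≠ j₀ := by
        rintro rfl
        apply hij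
        simp [M', hτj, hc₀]
      have hj : j ≠ j₀ := by
        rintro rfl
        apply hij
        simp only [M', Matrix.of_apply]
        rw [hcol, sub_self]
      have : τ i ∈ insert j₀ s ∧ j ∈ insert j₀ s ∧ β (τ i) = β j := by
        by_cases h0 : M (τ i) j = 0
        · have h1 : c (τ i) * M i₀ j ≠ 0 := fun h1 => hij (by simp only [M', Matrix.of_apply, h0, h1]; simp)
          have h2 := hc _ (left_ne_zero_of_mul h1)
          have h3 := hM _ _ (right_ne_zero_of_mul h1)
          exact ⟨h2.1, h3.2.1, by rw [h2.2, ← hβ₀, h3.2.2]⟩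
        · exact hM _ _ h0
      refine ⟨?_, ?_, by rw [← hτβ i]; exact this.2.2⟩
      · exact (Finset.mem_insert.1 ((hτs i).1 this.1)).resolve_left hi
      · exact (Finset.mem_insert.1 this.2.1).resolve_left hj
    obtain ⟨L, U, σ, h, hLU, hσs, hσβ, hlt, hinj, hL, hU⟩ := ih M' hM'
    have hσs' : ∀ x, x ∈ s → σ x ∈ s := by
      intro x hx
      by_contra hn
      have := σ.injective (hσs _ hn)
      exact hn (this.symm ▸ hx)
    have hne : ∀ x, x ∈ s → x ≠ j₀ := fun x hx h => hj₀ (h ▸ hx)
    let h' : X → ℕ := fun x => if x = j₀ then (s.filter fun y => β y = β j₀).card else h x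
    have hh' : ∀ x, x ∈ s → h' x = h x := fun x hx => if_neg (hne x hx)
    have hh'0 : h' j₀ = (s.filter fun y => β y = β j₀).card := if_pos rfl
    have hle : ∀ x, x ∈ s → β x = β j₀ → h' x < h' j₀ := by
      intro x hx hβ
      rw [hh' x hx, hh'0, ← hβ]
      exact hlt x hx
    have hle' : ∀ x, x ∈ insert j₀ s → β x = β j₀ → h' x ≤ h' j₀ := by
      intro x hx hβ
      rcases Finset.mem_insert.1 hx with rfl | hx
      · exact le_rfl
      · exact (hle x hx hβ).le
    have hL0 : ∀ i, L i j₀ = 0 := fun i => by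
      by_contra h0
      exact hj₀ (hL _ _ h0).2.1
    have hU0 : ∀ j, U j₀ j = 0 := fun j => by
      by_contra h0
      exact hj₀ (hU _ _ h0).1
    refine ⟨Matrix.of fun i j => if j = j₀ then c i else L (τ i) j,
      Matrix.of fun i j => if i = j₀ then M i₀ j else U i j, τ.trans σ, h', ?_, ?_, ?_, ?_, ?_,
      ?_, ?_⟩
    · ext i j
      have e1 : M' (τ i) j = (L * U) (τ i) j := by rw [hLU]
      simp only [M', Matrix.of_apply, hττ, Matrix.mul_apply] at e1
      rw [Matrix.mul_apply]
      have e2 : ∀ k, (Matrix.of fun i j => if j = j₀ then c i else L (τ i) j) i k *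
          (Matrix.of fun i j => if i = j₀ then M i₀ j else U i j) k j =
          L (τ i) k * U k j + if k = j₀ then c i * M i₀ j else 0 := by
        intro k
        by_cases hk : k = j₀
        · subst hk; simp [hL0]
        · simp [hk]
      simp only [e2, Finset.sum_add_distrib, Finset.sum_ite_eq', Finset.mem_univ, if_true]
      rw [← e1]; ring
    · intro x hx
      have h1 : x ≠ i₀ := fun h => hx (h ▸ hi₀)
      have h2 : x ≠ j₀ := fun h => hx (h ▸ Finset.mem_insert_self _ _)
      rw [Equiv.trans_apply, show τ x = x from Equiv.swap_apply_of_ne_of_ne h1 h2]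
      exact hσs x fun h => hx (Finset.mem_insert_of_mem h)
    · intro x
      rw [Equiv.trans_apply, hσβ, hτβ]
    · intro x hx
      rcases Finset.mem_insert.1 hx with rfl | hx
      · rw [hh'0, Finset.filter_insert, if_pos rfl,
          Finset.card_insert_of_notMem fun h => hj₀ (Finset.mem_filter.1 h).1]
        omega
      · rw [hh' x hx]
        exact (hlt x hx).trans_le
          (Finset.card_le_card (Finset.filter_subset_filter _ (Finset.subset_insert _ _)))
    · intro x hx y hy hβ hxy
      rcases Finset.mem_insert.1 hx with rfl | hx'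
      · rcases Finset.mem_insert.1 hy with rfl | hy'
        · rfl
        · have := hle y hy' hβ.symm
          omega
      · rcases Finset.mem_insert.1 hy with rfl | hy'
        · have := hle x hx' hβ
          omega
        · rw [hh' x hx', hh' y hy'] at hxy
          exact hinj x hx' y hy' hβ hxy
    · intro i j hij
      simp only [Matrix.of_apply] at hij
      rw [Equiv.trans_apply]
      by_cases hj : j = j₀
      · subst hj
        rw [if_pos rfl] at hij
        have h1 := hc i hij
        refine ⟨h1.1, Finset.mem_insert_self _ _, h1.2, hle' _ ?_ (by rw [hσβ, hτβ, h1.2])⟩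
        rcases Finset.mem_insert.1 ((hτs i).2 h1.1) with h2 | h2
        · rw [h2, hσs _ hj₀]; exact Finset.mem_insert_self _ _
        · exact Finset.mem_insert_of_mem (hσs' _ h2)
      · rw [if_neg hj] at hij
        have h1 := hL _ _ hij
        refine ⟨(hτs i).1 (Finset.mem_insert_of_mem h1.1), Finset.mem_insert_of_mem h1.2.1,
          by rw [← hτβ i]; exact h1.2.2.1, ?_⟩
        rw [hh' _ (hσs' _ h1.1), hh' _ h1.2.1]
        exact h1.2.2.2
    · intro i j hij
      simp only [Matrix.of_apply] at hij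
      by_cases hi : i = j₀
      · subst hi
        rw [if_pos rfl] at hij
        have h1 := hM _ _ hij
        exact ⟨Finset.mem_insert_self _ _, h1.2.1, hβ₀.symm.trans h1.2.2,
          hle' _ h1.2.1 (h1.2.2.symm.trans hβ₀)⟩
      · rw [if_neg hi] at hij
        have h1 := hU _ _ hij
        refine ⟨Finset.mem_insert_of_mem h1.1, Finset.mem_insert_of_mem h1.2.1, h1.2.2.1, ?_⟩
        rw [hh' _ h1.1, hh' _ h1.2.1]
        exact h1.2.2.2

/-- A block diagonal matrix with blocks of size at most `b` is a product of two block triangular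
matrices. -/
theorem BD.prd {β : X → ℕ} {M : Matrix X X K} (hM : BD β M) {b : ℕ}
    (hb : ∀ x, (univ.filter fun y => β y = β x).card ≤ b) : Prd b 2 M := by
  obtain ⟨L, U, σ, h, hLU, -, hσβ, hlt, hinj, hL, hU⟩ := plu_aux β univ M
    fun i j hij => ⟨mem_univ _, mem_univ _, hM i j hij⟩
  have hlt' : ∀ x, h x < b := fun x => (hlt x (mem_univ _)).trans_le (hb x)
  have hinj' : ∀ x y, β x = β y → h x = h y → x = y := fun x y =>
    hinj x (mem_univ _) y (mem_univ _)
  have eU : Elem b U := ⟨⟨β, h, β, h, hinj', hinj', hlt', hlt', le_rfl⟩,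
    fun i j hij => ⟨(hU i j hij).2.2.1, (hU i j hij).2.2.2⟩⟩
  have eL : Elem b Lᵀ := ⟨⟨β, h, β, fun x => h (σ x), hinj',
    fun x y h1 h2 => σ.injective (hinj' _ _ (by rw [hσβ, hσβ, h1]) h2), hlt',
    fun x => hlt' _, (Equiv.sum_comp σ h).ge⟩,
    fun i j hij => ⟨(hL j i hij).2.2.1.symm, (hL j i hij).2.2.2⟩⟩
  have eL' : Elem b L := eL.tr
  rw [hLU]
  exact eL'.prd.mul eU.prd

theorem BD.mul {β : X → ℕ} {M N : Matrix X X K} (hM : BD β M) (hN : BD β N) : BD β (M * N) := by
  intro i j hij
  rw [Matrix.mul_apply] at hij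
  obtain ⟨k, _, hk⟩ := Finset.exists_ne_zero_of_sum_ne_zero hij
  exact (hM _ _ (left_ne_zero_of_mul hk)).trans (hN _ _ (right_ne_zero_of_mul hk))

theorem BD.one (β : X → ℕ) : BD β (1 : Matrix X X K) := by
  intro i j hij
  by_contra h
  exact hij (Matrix.one_apply_ne fun h' => h (by rw [h']))

theorem BD.pow {β : X → ℕ} {M : Matrix X X K} (hM : BD β M) : ∀ n : ℕ, BD β (M ^ n)
  | 0 => by rw [pow_zero]; exact BD.one β
  | n + 1 => by rw [pow_succ]; exact (hM.pow n).mul hM

theorem BD.smul {β : X → ℕ} {M : Matrix X X K} (hM : BD β M) (c : K) : BD β (c • M) :=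
  fun i j hij => hM i j fun h => hij (by simp [h])

theorem BD.sum {β : X → ℕ} {α : Type*} (I : Finset α) {M : α → Matrix X X K}
    (hM : ∀ a ∈ I, BD β (M a)) : BD β (∑ a ∈ I, M a) := by
  intro i j hij
  rw [Matrix.sum_apply] at hij
  obtain ⟨a, ha, hk⟩ := Finset.exists_ne_zero_of_sum_ne_zero hij
  exact hM a ha i j hk

theorem BD.inv {β : X → ℕ} {M : Matrix X X K} (hM : BD β M) (hdet : IsUnit M.det) :
    BD β M⁻¹ := by
  let _ := Matrix.invertibleOfIsUnitDet M hdet
  have h1 : M.BlockTriangular β := fun i j hij => by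
    by_contra h
    exact hij.ne' (hM i j h)
  have h2 : M.BlockTriangular (fun x => OrderDual.toDual (β x)) := fun i j hij => by
    by_contra h
    have : β i < β j := hij
    exact this.ne (hM i j h)
  intro i j hij
  rcases lt_trichotomy (β i) (β j) with h | h | h
  · exact absurd (Matrix.blockTriangular_inv_of_blockTriangular h2 (i := i) (j := j) h) hij
  · exact h
  · exact absurd (Matrix.blockTriangular_inv_of_blockTriangular h1 (i := i) (j := j) h) hij

end Pool.Agent.H571Z
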