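import Pool.Agent.H571Z.DFT

set_option autoImplicit false
set_option linter.unusedSectionVars false

/-!
Simultaneous triangularisation of the shifts of a cyclic group, in any characteristic.
-/

namespace Pool.Agent.H571Z

open Finset Matrix Polynomial

variable {K : Type*} [Field K]

theorem shift_mul {G : Type} [Fintype G] [DecidableEq G] [AddCommGroup G] (a b : G) :
    (Matrix.of fun x y : G => if x - y = a then (1 : K) else 0) *
      (Matrix.of fun x y : G => if x - y = b then (1 : K) else 0) =
      Matrix.of fun x y : G => if x - y = a + b then (1 : K) else 0 := by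
  ext x y
  simp only [Matrix.mul_apply, Matrix.of_apply]
  rw [Finset.sum_eq_single (x - a)]
  · rw [if_pos (by abel), one_mul]
    congr 1
    apply propext
    constructor
    · intro h; rw [← h]; abel
    · intro h; rw [sub_right_comm, h]; abel
  · intro k _ hk
    rw [if_neg fun h => hk (by rw [← h]; abel), zero_mul]
  · simp

theorem shift_pow_nat {n : ℕ} [NeZero n] (m : ℕ) :
    (Matrix.of fun x y : ZMod n => if x - y = 1 then (1 : K) else 0) ^ m =
      Matrix.of fun x y : ZMod n => if x - y = (m : ZMod n) then (1 : K) else 0 := by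
  induction m with
  | zero =>
    ext x y
    simp [Matrix.one_apply, sub_eq_zero]
  | succ m ih => rw [pow_succ, ih, shift_mul, Nat.cast_succ]

theorem low_pow {X : Type} [Fintype X] [DecidableEq X] (h : X → ℕ) {J : Matrix X X K}
    (hJ : ∀ i j, J i j ≠ 0 → h j ≤ h i) : ∀ (m : ℕ) (i j : X), (J ^ m) i j ≠ 0 → h j ≤ h i
  | 0, i, j, hij => by
    by_contra hn
    rw [pow_zero] at hij
    exact hij (Matrix.one_apply_ne fun h' => hn (by rw [h']))
  | m + 1, i, j, hij => by
    rw [pow_succ, Matrix.mul_apply] at hij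
    obtain ⟨k, _, hk⟩ := Finset.exists_ne_zero_of_sum_ne_zero hij
    exact (hJ _ _ (right_ne_zero_of_mul hk)).trans (low_pow h hJ m _ _ (left_ne_zero_of_mul hk))

theorem lev_split {n : ℕ} [NeZero n] (α : ℕ → K)
    (hα : ∏ k ∈ range n, (X - C (α k)) = X ^ n - 1) {b : ℕ} (hb : n ≤ b) :
    Lev K (ZMod n) b 2 0 := by
  set Cm : Matrix (ZMod n) (ZMod n) K := Matrix.of fun x y => if x - y = 1 then 1 else 0 with hCm
  let T : ℕ → Matrix (ZMod n) (ZMod n) K := fun k => aeval Cm (∏ s ∈ range k, (X - C (α s)))
  have hT0 : T 0 = 1 := by simp [T]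
  have hTn : T n = 0 := by
    simp only [T, hα, map_sub, map_pow, aeval_X, map_one]
    rw [hCm, shift_pow_nat, sub_eq_zero]
    ext x y
    simp [Matrix.one_apply, sub_eq_zero]
  have hCmul : ∀ (A : Matrix (ZMod n) (ZMod n) K) x y, (Cm * A) x y = A (x - 1) y := by
    intro A x y
    rw [Matrix.mul_apply, Finset.sum_eq_single (x - 1)]
    · simp [hCm]
    · intro k _ hk
      rw [hCm, Matrix.of_apply, if_neg fun h => hk (by rw [← h]; abel), zero_mul]
    · simp
  have hTs : ∀ k x y, T (k + 1) x y = T k (x - 1) y - α k * T k x y := by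
    intro k x y
    have : T (k + 1) = Cm * T k - α k • T k := by
      simp only [T]
      rw [Finset.prod_range_succ, mul_comm, map_mul, map_sub, aeval_X, aeval_C, sub_mul,
        Algebra.smul_def]
    rw [this, Matrix.sub_apply, hCmul, Matrix.smul_apply, smul_eq_mul]
  have htri : ∀ k, k < n → ∀ x : ZMod n, k ≤ x.val → T k x 0 = if x.val = k then 1 else 0 := by
    intro k
    induction k with
    | zero =>
      intro _ x _
      rw [hT0, Matrix.one_apply]
      simp
    | succ k ih =>
      intro hk x hx
      have hv : (x - 1).val = x.val - 1 := by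
        have h1 : x - 1 = ((x.val - 1 : ℕ) : ZMod n) := by
          rw [Nat.cast_sub (by omega)]; simp
        rw [h1, ZMod.val_cast_of_lt (by have := ZMod.val_lt x; omega)]
      rw [hTs, ih (by omega) x (by omega), ih (by omega) (x - 1) (by omega), hv,
        if_neg (show ¬ x.val = k by omega), mul_zero, sub_zero]
      congr 1
      apply propext
      omega
  let W : Matrix (ZMod n) (ZMod n) K := Matrix.of fun x k => T k.val x 0
  have hdet : IsUnit W.det := by
    rw [← Matrix.det_submatrix_equiv_self (zfin n).symm, Matrix.det_of_isUpperTriangular]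
    · rw [Finset.prod_eq_one]
      · exact isUnit_one
      · intro i _
        simp only [W, Matrix.submatrix_apply, Matrix.of_apply]
        rw [htri _ (ZMod.val_lt _) _ le_rfl, if_pos rfl]
    · intro i j hij
      have e : ∀ i : Fin n, ((zfin n).symm i).val = i := fun i => by
        rw [← zfin_val, Equiv.apply_symm_apply]
      have hij' : (j : ℕ) < i := hij
      simp only [W, Matrix.submatrix_apply, Matrix.of_apply]
      rw [htri _ (ZMod.val_lt _) _ (by rw [e, e]; omega), if_neg (by rw [e, e]; omega)]
  let J : Matrix (ZMod n) (ZMod n) K := Matrix.of fun i j =>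
    (if i = j then α j.val else 0) + if i.val = j.val + 1 then 1 else 0
  have hWJ : Cm * W = W * J := by
    ext x k
    rw [hCmul, Matrix.mul_apply]
    simp only [W, J, Matrix.of_apply, mul_add, Finset.sum_add_distrib, mul_ite, mul_zero,
      Finset.sum_ite_eq', Finset.mem_univ, if_true, mul_one]
    have e : ∑ i : ZMod n, (if i.val = k.val + 1 then T i.val x 0 else 0) = T (k.val + 1) x 0 := by
      by_cases hk : k.val + 1 < n
      · rw [Finset.sum_eq_single ((k.val + 1 : ℕ) : ZMod n)]
        · rw [ZMod.val_cast_of_lt hk, if_pos rfl]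
        · intro i _ hi
          rw [if_neg fun h => hi (by rw [← h]; simp)]
        · simp
      · have : k.val + 1 = n := by have := ZMod.val_lt k; omega
        rw [this, hTn, Finset.sum_eq_zero fun i _ => if_neg (ZMod.val_lt i).ne]
        rfl
    rw [e, hTs]
    ring
  have hC : Cm = W * J * W⁻¹ := by
    rw [← hWJ, Matrix.mul_assoc, Matrix.mul_nonsing_inv _ hdet, Matrix.mul_one]
  have hbd : ∀ A : Matrix (ZMod n) (ZMod n) K, BPrd b 2 0 A := fun A =>
    (BD.prd (β := fun _ => 0) (fun _ _ _ => rfl) fun x => by simpa using hb).bprd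
  refine ⟨W, W⁻¹, ⟨fun _ => 0, ZMod.val, fun _ => 0, ZMod.val,
    fun x y _ h => ZMod.val_injective n h, fun x y _ h => ZMod.val_injective n h,
    fun x => (ZMod.val_lt x).trans_le hb, fun x => (ZMod.val_lt x).trans_le hb, le_rfl⟩,
    hbd _, hbd _, fun g => ⟨J ^ g.val, ?_, fun i j hij => ⟨rfl, ?_⟩⟩⟩
  · rw [← conj_pow' _ _ _ (Matrix.nonsing_inv_mul _ hdet) (Matrix.mul_nonsing_inv _ hdet), ← hC,
      hCm, shift_pow_nat]
    simp
  · refine low_pow ZMod.val (fun i j hij => ?_) _ i j hij
    by_contra hn
    apply hij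
    simp only [J, Matrix.of_apply]
    rw [if_neg fun h => hn (by rw [h]), if_neg (by omega), add_zero]

/-- circulant matrix of a function on an abelian group -/
def circ {G : Type*} [AddCommGroup G] (f : G → K) : Matrix G G K :=
  Matrix.of fun x y => f (x - y)

open scoped Kronecker in
/-- One step: from circulants over `B` to circulants over `A × B`. -/
theorem step {ι : Type} [Fintype ι] [DecidableEq ι] {X : ι → Type} [∀ t, Fintype (X t)]
    [∀ t, DecidableEq (X t)] [∀ t, AddCommGroup (X t)] {b k d : ℕ} {θ σ : ℝ}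
    (hC : Conc ι b θ σ) (hL : ∀ t, Lev K (X t) b k d) (N : Finset K) (hN0 : (0 : K) ∉ N)
    (hN : Fintype.card ι * d < N.card) {B : Type*} [Fintype B] [DecidableEq B] [AddCommGroup B]
    {ρ s : ℝ} (hB : ∀ f : B → K, NR (circ f) ρ s) (f : (∀ t, X t) × B → K) :
    NR (circ f)
      ((2 * N.card * k + 1) * (2 * θ * Fintype.card (∀ t, X t) * Fintype.card B) +
        Fintype.card (∀ t, X t) * σ * ρ)
      ((N.card * σ ^ k) ^ 2 * σ * s) := by
  choose W W' P hW hW' J hJ hJP using hL
  let T : Matrix ((∀ t, X t) × B) ((∀ t, X t) × B) K := Matrix.of fun x y =>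
    ∑ g : ∀ t, X t, kron (fun t => J t (g t)) x.1 y.1 * f (g, x.2 - y.2)
  have hT : T = ∑ g : ∀ t, X t, kron (fun t => J t (g t)) ⊗ₖ circ fun u => f (g, u) := by
    ext x y
    simp only [T, Matrix.of_apply, Matrix.sum_apply, Matrix.kroneckerMap_apply, circ]
  have e : circ f = (kron W ⊗ₖ (1 : Matrix B B K)) * T * (kron W' ⊗ₖ (1 : Matrix B B K)) := by
    rw [hT, Matrix.mul_sum, Matrix.sum_mul]
    have e1 : ∀ g : ∀ t, X t, (kron W ⊗ₖ (1 : Matrix B B K)) *
        (kron (fun t => J t (g t)) ⊗ₖ circ fun u => f (g, u)) * (kron W' ⊗ₖ (1 : Matrix B B K)) =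
        kron (fun t => Matrix.of fun x y => if x - y = g t then (1 : K) else 0) ⊗ₖ
          circ fun u => f (g, u) := by
      intro g
      rw [← Matrix.mul_kronecker_mul, ← Matrix.mul_kronecker_mul, Matrix.one_mul, Matrix.mul_one,
        ← kron_mul, ← kron_mul]
      simp only [hJ]
    simp only [e1]
    ext ⟨x, u⟩ ⟨y, v⟩
    simp only [Matrix.sum_apply, Matrix.kroneckerMap_apply, circ, kron, Matrix.of_apply]
    rw [Finset.sum_eq_single (x - y)]
    · simp
    · intro g _ hg
      obtain ⟨t, ht⟩ := Function.ne_iff.1 hg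
      rw [Finset.prod_eq_zero (Finset.mem_univ t) (if_neg fun h => ht h.symm), zero_mul]
    · simp
  have h1 := NR.kron_bprd B hC W hW N hN0 hN
  have h3 := NR.kron_bprd B hC W' hW' N hN0 hN
  have h2 := NR.core hC P T (hB 0).nonneg.1 (hB 0).nonneg.2
    (fun i j u v h t => by
      simp only [T, Matrix.of_apply] at h
      obtain ⟨g, _, hg⟩ := Finset.exists_ne_zero_of_sum_ne_zero h
      exact hJP t (g t) _ _ (Finset.prod_ne_zero_iff.1 (left_ne_zero_of_mul hg) t (mem_univ _)))
    (fun i j => hB fun u => ∑ g : ∀ t, X t, kron (fun t => J t (g t)) i j * f (g, u))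
  rw [e]
  convert (h1.mul h2).mul h3 using 1 <;> ring

/-- The trivial step. -/
theorem step_triv {A B : Type*} [Fintype A] [Fintype B] [AddCommGroup A] [AddCommGroup B]
    {ρ s : ℝ} (hB : ∀ f : B → K, NR (circ f) ρ s) (f : A × B → K) :
    NR (circ f) (Fintype.card A * Fintype.card A * ρ) (Fintype.card A * s) :=
  NR.blocks (circ f) (fun _ _ => True) (by positivity) (hB 0).nonneg.1 (hB 0).nonneg.2
    (fun _ => ⟨univ, by simp, by simp⟩) (fun _ => ⟨univ, by simp, by simp⟩)
    (fun _ _ h => absurd trivial h) fun i j _ => hB fun u => f (i - j, u)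

/-- Circulants over `G` are submatrices of circulants over `G'` if `G` embeds into `G'` in such a
way that differences in `G'` determine differences in `G`. -/
theorem embed {G G' : Type*} [Fintype G] [Fintype G'] [AddCommGroup G] [AddCommGroup G']
    (e : G → G') (he : ∀ x y x' y', e x - e y = e x' - e y' → x - y = x' - y') {ρ s : ℝ}
    (h : ∀ F : G' → K, NR (circ F) ρ s) (f : G → K) : NR (circ f) ρ s := by
  classical
  have hinj : Function.Injective e := fun x y hxy => by
    have := he x y x x (by rw [hxy])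
    rwa [sub_self, sub_eq_zero] at this
  let F : G' → K := fun z =>
    if h : ∃ p : G × G, e p.1 - e p.2 = z then f (h.choose.1 - h.choose.2) else 0
  have : circ f = (circ F).submatrix e e := by
    ext x y
    have h : ∃ p : G × G, e p.1 - e p.2 = e x - e y := ⟨(x, y), rfl⟩
    simp only [circ, Matrix.submatrix_apply, Matrix.of_apply, F]
    rw [dif_pos h, he _ _ _ _ h.choose_spec]
  rw [this]
  exact (h F).submatrix e e hinj hinj

end Pool.Agent.H571Z
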