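import Pool.Agent.H571Z.PLU

set_option autoImplicit false
set_option linter.unusedSectionVars false

/-!
Lower triangular Toeplitz matrices of size `n ≤ c²` are limits of products of eight block
triangular matrices with blocks of size at most `c`.
-/

namespace Pool.Agent.H571Z

open Finset Matrix Polynomial

variable {K : Type*} [Field K]

theorem succ_div_mod {c : ℕ} (hc : 0 < c) (x : ℕ) :
    (x % c + 1 < c ∧ (x + 1) / c = x / c ∧ (x + 1) % c = x % c + 1) ∨
      (x % c + 1 = c ∧ (x + 1) / c = x / c + 1 ∧ (x + 1) % c = 0) := by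
  have h1 := Nat.mod_lt x hc
  have h2 := Nat.mod_add_div x c
  rcases Nat.lt_or_ge (x % c + 1) c with h | h
  · exact Or.inl ⟨h, (Nat.div_mod_unique hc).2 ⟨by omega, h⟩⟩
  · refine Or.inr ⟨by omega, (Nat.div_mod_unique hc).2 ⟨?_, hc⟩⟩
    rw [Nat.mul_add]; omega

/-- lower triangular Toeplitz matrix -/
def Tz (φ : ℕ → K) (n : ℕ) : Matrix (Fin n) (Fin n) K :=
  Matrix.of fun i j => if (j : ℕ) ≤ i then φ (i - j) else 0

/-- block Vandermonde matrix -/
def vS (γ : ℕ → K) (n c : ℕ) : Matrix (Fin n) (Fin n) K :=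
  Matrix.of fun i j => if (i : ℕ) % c = j % c then γ (i / c) ^ ((j : ℕ) / c) else 0

/-- block companion matrix -/
def vW (γ : ℕ → K) (n c : ℕ) : Matrix (Fin n) (Fin n) K :=
  Matrix.of fun i j => if (i : ℕ) % c = 0 then (if (j : ℕ) + 1 = i + c then γ (i / c) else 0)
    else (if (j : ℕ) + 1 = i then 1 else 0)

theorem vW_mul_vS (γ : ℕ → K) {n c : ℕ} (hc : 0 < c) (hγ : γ (n / c) = 0) (i j : Fin n)
    (hj : (j : ℕ) + 1 < n) : (vW γ n c * vS γ n c) i j = vS γ n c i ⟨j + 1, hj⟩ := by
  have hi := i.2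
  rw [Matrix.mul_apply]
  by_cases h0 : (i : ℕ) % c = 0
  · by_cases h1 : (i : ℕ) + c - 1 < n
    · rw [Finset.sum_eq_single ⟨i + c - 1, h1⟩]
      · have e : ((i : ℕ) + c - 1) / c = i / c ∧ ((i : ℕ) + c - 1) % c = c - 1 := by
          refine (Nat.div_mod_unique hc).2 ⟨?_, by omega⟩
          have := Nat.mod_add_div i c
          omega
        simp only [vW, vS, Matrix.of_apply, h0, if_true, e.1, e.2]
        rw [if_pos (by omega)]
        rcases succ_div_mod hc j with h | h
        · rw [if_neg (by omega), if_neg (by omega), mul_zero]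
        · rw [if_pos (by omega), if_pos (by omega), h.2.1, pow_succ']
      · intro k _ hk
        have : (k : ℕ) + 1 ≠ i + c := fun h => hk (Fin.ext (by simp only; omega))
        simp [vW, h0, this]
      · simp
    · rw [Finset.sum_eq_zero fun k _ => by
        have : (k : ℕ) + 1 ≠ i + c := by have := k.2; omega
        simp [vW, h0, this]]
      simp only [vS, Matrix.of_apply, h0]
      split_ifs with h2
      · have e1 : (i : ℕ) / c = n / c := by
          refine le_antisymm (Nat.div_le_div_right hi.le) ?_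
          have h3 : n / c < i / c + 1 := by
            rw [Nat.div_lt_iff_lt_mul hc, Nat.add_mul, Nat.mul_comm]
            have := Nat.mod_add_div i c
            omega
          omega
        rcases succ_div_mod hc j with h | h
        · omega
        · rw [e1, hγ, h.2.1, pow_succ, mul_zero]
      · rfl
  · have hi0 : 0 < (i : ℕ) := Nat.pos_of_ne_zero fun h => h0 (by rw [h, Nat.zero_mod])
    rw [Finset.sum_eq_single ⟨i - 1, by omega⟩]
    · have e := succ_div_mod hc ((i : ℕ) - 1)
      rw [show (i : ℕ) - 1 + 1 = i by omega] at e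
      simp only [vW, vS, Matrix.of_apply, h0, if_false]
      rw [if_pos (by omega), one_mul]
      rcases e with e | e
      · rcases succ_div_mod hc j with h | h
        · rw [h.2.1, e.2.1]
          by_cases h3 : ((i : ℕ) - 1) % c = j % c
          · rw [if_pos h3, if_pos (by omega)]
          · rw [if_neg h3, if_neg (by omega)]
        · rw [if_neg (by omega), if_neg (by omega)]
      · omega
    · intro k _ hk
      have : (k : ℕ) + 1 ≠ i := fun h => hk (Fin.ext (by simp only; omega))
      simp [vW, h0, this]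
    · simp

theorem vS_det (γ : ℕ → K) {n c : ℕ} (hc : 0 < c)
    (hγ : ∀ u v, u ≤ n / c → v ≤ n / c → γ u = γ v → u = v) : IsUnit (vS γ n c).det := by
  rw [isUnit_iff_ne_zero]
  intro hdet
  obtain ⟨v, hv, hSv⟩ := Matrix.exists_mulVec_eq_zero_iff.2 hdet
  obtain ⟨j₀, hj₀⟩ := Function.ne_iff.1 hv
  let p : K[X] := ∑ j : Fin n, if (j₀ : ℕ) % c = j % c then C (v j) * X ^ ((j : ℕ) / c) else 0
  have hcoeff : ∀ u, p.coeff u =
      ∑ j : Fin n, if (j₀ : ℕ) % c = j % c ∧ u = j / c then v j else 0 := by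
    intro u
    simp only [p, finsetSum_coeff]
    refine Finset.sum_congr rfl fun j _ => ?_
    by_cases h1 : (j₀ : ℕ) % c = j % c
    · simp [h1, coeff_X_pow]
    · simp [h1]
  have hp : p ≠ 0 := by
    intro h
    have := hcoeff (j₀ / c)
    rw [h, coeff_zero, Finset.sum_eq_single j₀] at this
    · simp only [and_self, if_true] at this
      exact hj₀ this.symm
    · intro j _ hj
      rw [if_neg]
      rintro ⟨h1, h2⟩
      apply hj
      apply Fin.ext
      rw [← Nat.mod_add_div j c, ← Nat.mod_add_div j₀ c, h1, h2]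
    · simp
  obtain ⟨j₁, hj₁, hj₁'⟩ : ∃ j : Fin n, (j₀ : ℕ) % c = j % c ∧ p.natDegree = j / c := by
    have h1 : p.coeff p.natDegree ≠ 0 := leadingCoeff_ne_zero.2 hp
    rw [hcoeff] at h1
    obtain ⟨j, _, hj⟩ := Finset.exists_ne_zero_of_sum_ne_zero h1
    exact ⟨j, by by_contra h; exact hj (if_neg h)⟩
  have hU : p.natDegree ≤ n / c := hj₁' ▸ Nat.div_le_div_right j₁.2.le
  refine hp (Polynomial.eq_zero_of_natDegree_lt_card_of_eval_eq_zero p
    (ι := Fin (p.natDegree + 1)) (f := fun u => γ u) (fun u w h => Fin.ext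
      (hγ _ _ (by have := u.2; omega) (by have := w.2; omega) h)) (fun u => ?_) (by simp))
  have hu : (j₀ : ℕ) % c + c * u < n := by
    have h1 := Nat.mod_add_div j₁ c
    have h2 : c * u ≤ c * (j₁ / c) := Nat.mul_le_mul_left _ (by have := u.2; omega)
    have := j₁.2
    omega
  have e : ((j₀ : ℕ) % c + c * u) / c = u ∧ ((j₀ : ℕ) % c + c * u) % c = j₀ % c :=
    (Nat.div_mod_unique hc).2 ⟨rfl, Nat.mod_lt _ hc⟩
  have h2 := congrFun hSv ⟨_, hu⟩
  simp only [Matrix.mulVec, dotProduct, vS, Matrix.of_apply, e.1, e.2, Pi.zero_apply] at h2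
  simp only [p, eval_finsetSum]
  rw [← h2]
  refine Finset.sum_congr rfl fun j _ => ?_
  split_ifs
  · rw [eval_mul, eval_C, eval_pow, eval_X, mul_comm]
  · rw [eval_zero, zero_mul]

theorem card_mod_le {n c : ℕ} (hc : 0 < c) (hn : n ≤ c * c) (x : Fin n) :
    (univ.filter fun y : Fin n => (y : ℕ) % c = x % c).card ≤ c := by
  conv_rhs => rw [← Finset.card_range c]
  refine Finset.card_le_card_of_injOn (fun y => (y : ℕ) / c) (fun y _ => ?_)
    fun y hy z hz h => ?_
  · simp only [Finset.coe_range, Set.mem_Iio]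
    rw [Nat.div_lt_iff_lt_mul hc]
    have := y.2
    omega
  · have hy' : (y : ℕ) % c = x % c := by simpa using hy
    have hz' : (z : ℕ) % c = x % c := by simpa using hz
    apply Fin.ext
    simp only at h
    rw [← Nat.mod_add_div y c, ← Nat.mod_add_div z c, h, hy', hz']

theorem card_div_le {n c : ℕ} (hc : 0 < c) (x : Fin n) :
    (univ.filter fun y : Fin n => (y : ℕ) / c = x / c).card ≤ c := by
  conv_rhs => rw [← Finset.card_range c]
  refine Finset.card_le_card_of_injOn (fun y => (y : ℕ) % c) (fun y _ => ?_)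
    fun y hy z hz h => ?_
  · simp only [Finset.coe_range, Set.mem_Iio]
    exact Nat.mod_lt _ hc
  · have hy' : (y : ℕ) / c = x / c := by simpa using hy
    have hz' : (z : ℕ) / c = x / c := by simpa using hz
    apply Fin.ext
    simp only at h
    rw [← Nat.mod_add_div y c, ← Nat.mod_add_div z c, h, hy', hz']

theorem vS_bd (γ : ℕ → K) (n c : ℕ) : BD (fun x : Fin n => (x : ℕ) % c) (vS γ n c) := by
  intro i j hij
  by_contra h
  exact hij (if_neg h)

theorem vW_bd (γ : ℕ → K) (n : ℕ) {c : ℕ} (hc : 0 < c) :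
    BD (fun x : Fin n => (x : ℕ) / c) (vW γ n c) := by
  intro i j hij
  simp only [vW, Matrix.of_apply] at hij
  show (i : ℕ) / c = j / c
  rcases succ_div_mod hc j with h | h
  · split_ifs at hij with h1 h2 h3
    · exfalso
      have := h.2.2
      rw [h2, Nat.add_mod_right] at this
      omega
    · exact absurd rfl hij
    · rw [← h3, h.2.1]
    · exact absurd rfl hij
  · split_ifs at hij with h1 h2 h3
    · have := h.2.1
      rw [h2, Nat.add_div_right _ hc] at this
      omega
    · exact absurd rfl hij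
    · exfalso
      rw [h3] at h
      exact h1 h.2.2
    · exact absurd rfl hij

theorem shift_pow (n d : ℕ) :
    (Matrix.of fun i j : Fin n => if (i : ℕ) = j + 1 then (1 : K) else 0) ^ d =
      Matrix.of fun i j : Fin n => if (i : ℕ) = j + d then (1 : K) else 0 := by
  induction d with
  | zero =>
    ext i j
    simp [Matrix.one_apply, Fin.ext_iff]
  | succ d ih =>
    rw [pow_succ, ih]
    ext i j
    simp only [Matrix.mul_apply, Matrix.of_apply]
    by_cases hj : (j : ℕ) + 1 < n
    · rw [Finset.sum_eq_single ⟨j + 1, hj⟩]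
      · simp only [if_true, mul_one]
        congr 1
        apply propext
        omega
      · intro k _ hk
        have : (k : ℕ) ≠ j + 1 := fun h => hk (Fin.ext h)
        simp [this]
      · simp
    · rw [Finset.sum_eq_zero fun k _ => by
        have : (k : ℕ) ≠ j + 1 := by have := k.2; omega
        simp [this], if_neg (by have := i.2; omega)]

theorem conj_pow' {X : Type} [Fintype X] [DecidableEq X] (P P' A : Matrix X X K)
    (h1 : P * P' = 1) (h2 : P' * P = 1) (d : ℕ) : (P' * A * P) ^ d = P' * A ^ d * P := by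
  induction d with
  | zero => simp [h2]
  | succ d ih =>
    rw [pow_succ, ih, pow_succ]
    calc P' * A ^ d * P * (P' * A * P) = P' * A ^ d * (P * P') * A * P := by
          simp only [Matrix.mul_assoc]
      _ = _ := by rw [h1, Matrix.mul_one, Matrix.mul_assoc P' (A ^ d) A]

theorem natDegree_pow_entry_le {X : Type} [Fintype X] [DecidableEq X] {Q : Matrix X X K[X]}
    {e : ℕ} (h : ∀ i j, (Q i j).natDegree ≤ e) : ∀ (d : ℕ) (i j : X),
    ((Q ^ d) i j).natDegree ≤ d * e
  | 0, i, j => by
    rw [pow_zero, Matrix.one_apply]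
    split_ifs <;> simp
  | d + 1, i, j => by
    rw [pow_succ, Nat.add_mul, Nat.one_mul]
    exact natDegree_mul_entry_le (natDegree_pow_entry_le h d) h i j

theorem Tz_bprd (φ : ℕ → K) {n c : ℕ} (hc : 0 < c) (hn : n ≤ c * c) (g : ℕ → K)
    (hg0 : ∀ u < c, g u ≠ 0) (hg : ∀ u < c, ∀ v < c, g u = g v → u = v) :
    BPrd c 8 (n * n) (Tz φ n) := by
  let γ : ℕ → K := fun u => if u < n / c then g u else 0
  have hnc : n / c ≤ c := Nat.div_le_of_le_mul hn
  have hγ0 : γ (n / c) = 0 := if_neg (lt_irrefl _)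
  have hγ : ∀ u v, u ≤ n / c → v ≤ n / c → γ u = γ v → u = v := by
    intro u v hu hv h
    simp only [γ] at h
    split_ifs at h with h1 h2 h2
    · exact hg u (by omega) v (by omega) h
    · exact absurd h (hg0 u (by omega))
    · exact absurd h.symm (hg0 v (by omega))
    · omega
  have hdet := vS_det γ hc hγ
  set S := vS γ n c with hS
  set W := vW γ n c with hW
  let Z₁ := S⁻¹ * W * S
  have hZ₁ : ∀ i j : Fin n, (j : ℕ) + 1 < n → Z₁ i j = if (i : ℕ) = j + 1 then 1 else 0 := by
    intro i j hj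
    have e : Z₁ i j = (S⁻¹ * S) i ⟨j + 1, hj⟩ := by
      simp only [Z₁]
      rw [Matrix.mul_assoc, Matrix.mul_apply, Matrix.mul_apply]
      exact Finset.sum_congr rfl fun k _ => by rw [vW_mul_vS γ hc hγ0 k j hj]
    rw [e, Matrix.nonsing_inv_mul _ hdet, Matrix.one_apply]
    simp [Fin.ext_iff]
  let Q : Matrix (Fin n) (Fin n) K[X] :=
    Matrix.of fun i j => C (Z₁ i j) * X ^ ((j : ℕ) + 1 - i)
  have hQ : ∀ i j, (Q i j).natDegree ≤ n := fun i j =>
    (natDegree_C_mul_X_pow_le _ _).trans (by have := j.2; omega)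
  have hmap : ∀ δ : K, (∑ d ∈ range n, C (φ d) • Q ^ d).map (evalRingHom δ) =
      ∑ d ∈ range n, φ d • (Q.map (evalRingHom δ)) ^ d := by
    intro δ
    rw [← RingHom.mapMatrix_apply, map_sum]
    refine Finset.sum_congr rfl fun d _ => ?_
    have e : Q.map (evalRingHom δ) ^ d = (Q ^ d).map (evalRingHom δ) := by
      rw [← RingHom.mapMatrix_apply, ← RingHom.mapMatrix_apply, map_pow]
    rw [e]
    ext i j
    simp only [RingHom.mapMatrix_apply, Matrix.map_apply, Matrix.smul_apply, smul_eq_mul,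
      coe_evalRingHom, eval_mul, eval_C]
  refine ⟨∑ d ∈ range n, C (φ d) • Q ^ d, fun i j => ?_, ?_, fun δ hδ => ?_⟩
  · rw [Matrix.sum_apply]
    refine natDegree_sum_le_of_forall_le _ _ fun d hd => ?_
    rw [Matrix.smul_apply, smul_eq_mul]
    refine (natDegree_C_mul_le _ _).trans ((natDegree_pow_entry_le hQ d i j).trans ?_)
    exact Nat.mul_le_mul_right _ (Finset.mem_range.1 hd).le
  · have e : Q.map (evalRingHom 0) =
        Matrix.of fun i j : Fin n => if (i : ℕ) = j + 1 then (1 : K) else 0 := by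
      ext i j
      simp only [Q, Matrix.map_apply, Matrix.of_apply, coe_evalRingHom, eval_mul, eval_C,
        eval_pow, eval_X]
      by_cases h : (j : ℕ) + 1 ≤ i
      · rw [hZ₁ i j (by have := i.2; omega), Nat.sub_eq_zero_of_le h, pow_zero, mul_one]
      · rw [zero_pow (by omega), mul_zero, if_neg (by omega)]
    rw [hmap, e]
    ext i j
    simp only [shift_pow, Matrix.sum_apply, Matrix.smul_apply, Matrix.of_apply, smul_eq_mul, Tz]
    split_ifs with h
    · rw [Finset.sum_eq_single ((i : ℕ) - j)]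
      · rw [if_pos (by omega), mul_one]
      · intro d _ hd
        rw [if_neg (by omega), mul_zero]
      · intro h'
        exact absurd (Finset.mem_range.2 (by have := i.2; omega)) h'
    · exact Finset.sum_eq_zero fun d _ => by rw [if_neg (by omega), mul_zero]
  · let Δ : Matrix (Fin n) (Fin n) K := Matrix.diagonal fun j => δ ^ (j : ℕ)
    let Δ' : Matrix (Fin n) (Fin n) K := Matrix.diagonal fun j => δ⁻¹ ^ (j : ℕ)
    have hΔ : Δ * Δ' = 1 := by
      simp only [Δ, Δ', Matrix.diagonal_mul_diagonal, ← mul_pow, mul_inv_cancel₀ hδ, one_pow]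
      exact Matrix.diagonal_one
    have hΔ' : Δ' * Δ = 1 := by
      simp only [Δ, Δ', Matrix.diagonal_mul_diagonal, ← mul_pow, inv_mul_cancel₀ hδ, one_pow]
      exact Matrix.diagonal_one
    have e : Q.map (evalRingHom δ) = (Δ' * S⁻¹) * (δ • W) * (S * Δ) := by
      have e1 : (Δ' * S⁻¹) * (δ • W) * (S * Δ) = Δ' * (δ • Z₁) * Δ := by
        simp only [Z₁, Matrix.mul_smul, Matrix.smul_mul, Matrix.mul_assoc]
      rw [e1]
      ext i j
      simp only [Q, Δ, Δ', Matrix.map_apply, Matrix.of_apply, coe_evalRingHom, eval_mul, eval_C,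
        eval_pow, eval_X, Matrix.mul_diagonal, Matrix.diagonal_mul, Matrix.smul_apply, smul_eq_mul]
      by_cases h : (i : ℕ) ≤ j + 1
      · have e2 : δ ^ ((j : ℕ) + 1) = δ ^ ((j : ℕ) + 1 - i) * δ ^ (i : ℕ) := by
          rw [← pow_add, Nat.sub_add_cancel h]
        have e3 : δ ^ (i : ℕ) ≠ 0 := pow_ne_zero _ hδ
        rw [inv_pow]
        field_simp
        rw [pow_succ] at e2
        linear_combination (Z₁ i j) * e2.symm
      · rw [hZ₁ i j (by have := i.2; omega), if_neg (by omega)]
        simp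
    have h1 : (S * Δ) * (Δ' * S⁻¹) = 1 := by
      rw [Matrix.mul_assoc, ← Matrix.mul_assoc Δ, hΔ, Matrix.one_mul, Matrix.mul_nonsing_inv _ hdet]
    have h2 : (Δ' * S⁻¹) * (S * Δ) = 1 := by
      rw [Matrix.mul_assoc, ← Matrix.mul_assoc S⁻¹, Matrix.nonsing_inv_mul _ hdet, Matrix.one_mul,
        hΔ']
    rw [hmap, e]
    have e4 : ∑ d ∈ range n, φ d • ((Δ' * S⁻¹) * (δ • W) * (S * Δ)) ^ d =
        Δ' * S⁻¹ * (∑ d ∈ range n, φ d • (δ • W) ^ d) * S * Δ := by
      rw [Matrix.mul_assoc _ S Δ, Matrix.mul_sum, Matrix.sum_mul]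
      refine Finset.sum_congr rfl fun d _ => ?_
      rw [conj_pow' _ _ _ h1 h2, Matrix.mul_smul, Matrix.smul_mul]
    rw [e4]
    have p1 : Prd c 1 Δ' := (Elem.diagonal hc _).prd
    have p2 : Prd c 2 S⁻¹ := ((vS_bd γ n c).inv hdet).prd (card_mod_le hc hn)
    have p3 : Prd c 2 (∑ d ∈ range n, φ d • (δ • W) ^ d) :=
      (BD.sum _ fun d _ => (((vW_bd γ n hc).smul δ).pow d).smul _).prd (card_div_le hc)
    have p4 : Prd c 2 S := (vS_bd γ n c).prd (card_mod_le hc hn)
    have p5 : Prd c 1 Δ := (Elem.diagonal hc _).prd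
    exact (((p1.mul p2).mul p3).mul p4).mul p5

end Pool.Agent.H571Z
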